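import Pool.Agent.N699.RP.One
import Pool.Agent.H373R2.T7.SupLiou

set_option autoImplicit false

/-! Correlations of the Moebius function at random shifts: all intervals, all small multiples of the shift. -/

namespace Pool.Agent.N699.GC
open Finset
open Pool.Agent.H807R2.Dav
open Pool.Agent.H373R2.T7
open Pool.Agent.W93.LM (FC FC_pars EE_corrC)
open Pool.Agent.N699.RP

/-- prefix sums from blocks -/
lemma blocks (f : ℕ → ℂ) (hf : ∀ n, ‖f n‖ ≤ 1) (D R : ℕ) (hD : 1 ≤ D) (b : ℕ) (hb : b ≤ R * D) :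
    ‖∑ y ∈ Ioc 0 b, f y‖ ≤ ∑ m ∈ range R, ‖∑ y ∈ Ioc (m * D) ((m + 1) * D), f y‖ + D := by
  have h1 : ∀ q : ℕ, ∑ y ∈ Ioc 0 (q * D), f y = ∑ m ∈ range q, ∑ y ∈ Ioc (m * D) ((m + 1) * D), f y := by
    intro q
    induction q with
    | zero => simp
    | succ q ih =>
      rw [sum_range_succ, ← ih]
      exact (sum_Ioc_consecutive f (Nat.zero_le _) (Nat.mul_le_mul_right _ (Nat.le_succ q))).symm
  have h2 : b / D * D ≤ b := Nat.div_mul_le_self b D
  have h3 : b < b / D * D + D := by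
    have := Nat.div_add_mod b D
    have := Nat.mod_lt b (show D > 0 by omega)
    nlinarith
  have h4 : b / D ≤ R := by
    by_contra hcon
    have h5 : R + 1 ≤ b / D := by omega
    have h6 : (R + 1) * D ≤ b / D * D := Nat.mul_le_mul_right _ h5
    have h7 : (R + 1) * D = R * D + D := by ring
    omega
  rw [← sum_Ioc_consecutive f (Nat.zero_le _) h2, h1]
  refine (norm_add_le _ _).trans (add_le_add ?_ ?_)
  · refine (norm_sum_le _ _).trans ?_
    exact sum_le_sum_of_subset_of_nonneg (range_mono h4) fun _ _ _ => norm_nonneg _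
  · refine (norm_sum_le _ _).trans ((sum_le_sum fun n _ => hf n).trans ?_)
    rw [sum_const, nsmul_eq_mul, mul_one, Nat.card_Ioc]
    exact_mod_cast (by omega : b - b / D * D ≤ D)

lemma intervals (f : ℕ → ℂ) (hf : ∀ n, ‖f n‖ ≤ 1) (D R : ℕ) (hD : 1 ≤ D) (a b : ℕ) (hab : a ≤ b) (hb : b ≤ R * D) :
    ‖∑ y ∈ Ioc a b, f y‖ ≤ 2 * (∑ m ∈ range R, ‖∑ y ∈ Ioc (m * D) ((m + 1) * D), f y‖ + D) := by
  have h1 := sum_Ioc_consecutive f (Nat.zero_le a) hab
  have h2 : ∑ y ∈ Ioc a b, f y = ∑ y ∈ Ioc 0 b, f y - ∑ y ∈ Ioc 0 a, f y := by rw [← h1]; ring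
  rw [h2, two_mul]
  exact (norm_sub_le _ _).trans (add_le_add (blocks f hf D R hD b hb) (blocks f hf D R hD a (by omega)))

/-- the mean square of the correlation of the Moebius function with a bounded function, for small multiples of the shift -/
theorem corr_mu (A B B1 E V : ℕ) (hB : 1 ≤ B) (hB1 : 1 ≤ B1) : ∃ N₀ : ℕ, ∀ N, N₀ ≤ N → ∀ (Ω : Finset ℕ) (p : ℕ → ℝ),
    Lw B E (2 * V + 2 * A + 1) N Ω p → ∀ K : ℕ, 1 ≤ K → (K : ℝ) ≤ Real.log N ^ A → ∀ κ t : ℕ, 1 ≤ κ → κ ≤ K → t ≤ K →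
    ∀ Y : ℕ, Y ≤ B1 * K * N → ∀ G : ℕ → ℂ, (∀ n, ‖G n‖ ≤ 1) →
    ∑ v ∈ Ω, p v * ‖∑ n ∈ Icc 1 Y, G n * muC (n + (t + κ * v))‖ ^ 2 ≤ (N / Real.log N ^ V) ^ 2 := by
  obtain ⟨B2, hB2⟩ : ∃ B2 : ℕ, B2 = B1 + 1 + B := ⟨_, rfl⟩
  obtain ⟨U', hU'⟩ : ∃ U', U' = V + 2 * A + 2 * E + 1 := ⟨_, rfl⟩
  obtain ⟨n1, h1⟩ := sup_muC U'
  obtain ⟨n2, h2⟩ := ev_L' ((B2 : ℝ) ^ 2 + 8 * (B2 : ℝ) ^ 3 + 2)
  obtain ⟨n3, h3⟩ := log_small (2 * E) 2
  refine ⟨n1 + n2 + n3 + 3, fun N hN Ω p hlaw K hK1 hK κ t hκ1 hκK htK Y hY G hG => ?_⟩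
  obtain ⟨hp, hp1, hsize, hdec⟩ := hlaw
  have hN1 : 1 ≤ N := by omega
  have hN0 : (0 : ℝ) < N := by exact_mod_cast hN1
  have a2 := h2 N (by omega)
  have a3 := h3 N (by omega)
  obtain ⟨L, hLd⟩ : ∃ L, L = Real.log (N : ℝ) := ⟨_, rfl⟩
  rw [← hLd] at a2 a3 hdec hK ⊢
  have hB2r : (1 : ℝ) ≤ B2 := by exact_mod_cast (by omega : 1 ≤ B2)
  have hB2s : 0 ≤ (B2 : ℝ) ^ 2 := by positivity
  have hB2c : 0 ≤ (B2 : ℝ) ^ 3 := by positivity
  have hL1 : 1 ≤ L := by linarith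
  have hL0 : 0 < L := by linarith
  have hKr : (1 : ℝ) ≤ K := by exact_mod_cast hK1
  obtain ⟨X, hX⟩ : ∃ X, X = B2 * K * N := ⟨_, rfl⟩
  obtain ⟨M, hM⟩ : ∃ M, M = 2 * X := ⟨_, rfl⟩
  have hKN : 1 ≤ K * N := Nat.mul_pos hK1 hN1
  have hXN : N ≤ X := by
    rw [hX, mul_assoc]
    calc N ≤ K * N := Nat.le_mul_of_pos_left _ hK1
      _ ≤ B2 * (K * N) := Nat.le_mul_of_pos_left _ (by omega)
  have hX1 : 1 ≤ X := by omega
  have hX0 : (0 : ℝ) < X := by exact_mod_cast hX1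
  have hYX : Y ≤ X := by
    refine hY.trans ?_
    rw [hX, hB2]
    exact Nat.mul_le_mul_right _ (Nat.mul_le_mul_right _ (by omega))
  have hXr : (X : ℝ) = B2 * K * N := by rw [hX]; push_cast; ring
  have hMr : (M : ℝ) = 2 * X := by rw [hM]; push_cast; ring
  have hlogX : L ≤ Real.log X := by
    rw [hLd]
    exact Real.log_le_log hN0 (by exact_mod_cast hXN)
  have hLE : 1 ≤ L ^ E := one_le_pow₀ hL1
  have hLA : 1 ≤ L ^ A := one_le_pow₀ hL1
  have hcb := corr_bound κ t Y X M hκ1 hX1 hM hYX (L ^ E) (L ^ E / N) (1 / L ^ (2 * V + 2 * A + 1)) (X / L ^ U') X 1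
    hLE (by positivity) (by
      rw [← mul_div_assoc, div_lt_one hN0, ← pow_add, ← two_mul]
      have : 1 ≤ L ^ (2 * E) := one_le_pow₀ hL1
      linarith) (by positivity) (by positivity) zero_le_one Ω p hp hp1 (by
      intro v hv
      have e1 : κ * v ≤ K * (B * N) := Nat.mul_le_mul hκK (hsize v hv)
      have e2 : t ≤ K * N := htK.trans (Nat.le_mul_of_pos_right _ hN1)
      calc Y + (t + κ * v) ≤ B1 * K * N + (K * N + K * (B * N)) := add_le_add hY (add_le_add e2 e1)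
        _ = X := by rw [hX, hB2]; ring) hdec muC G (fun n _ => hG n) (by
      intro r
      have e1 := h1 X (by omega) ((r : ℝ) / (M : ℝ))
      unfold FC
      refine e1.trans ?_
      exact div_le_div_of_nonneg_left hX0.le (by positivity) (pow_le_pow_left₀ hL0.le hlogX _)) (by
      rw [FC_pars _ X M (by omega) (by omega)]
      apply mul_le_mul_of_nonneg_left _ (by positivity)
      calc ∑ n ∈ Icc 1 X, ‖muC n‖ ^ 2 ≤ ∑ _n ∈ Icc 1 X, (1 : ℝ) := sum_le_sum fun n _ => pow_le_one₀ (norm_nonneg _) (muC_norm n)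
        _ = X := by rw [sum_const, nsmul_eq_mul, mul_one, Nat.card_Icc, Nat.add_sub_cancel])
  refine hcb.trans ?_
  have hκr : (κ : ℝ) ≤ L ^ A := le_trans (by exact_mod_cast hκK) hK
  have hκ0 : (0 : ℝ) ≤ κ := Nat.cast_nonneg _
  have e1 : 2 * (κ : ℝ) * L ^ E + 1 ≤ 3 * L ^ (A + E) := by
    rw [pow_add]
    have : (κ : ℝ) * L ^ E ≤ L ^ A * L ^ E := mul_le_mul_of_nonneg_right hκr (by positivity)
    have h5 : 1 ≤ L ^ A * L ^ E := one_le_mul_of_one_le_of_one_le hLA hLE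
    nlinarith
  have hXL : (X : ℝ) ≤ B2 * L ^ A * N := by
    rw [hXr]
    exact mul_le_mul_of_nonneg_right (mul_le_mul_of_nonneg_left hK (by linarith)) hN0.le
  have e2 : 2 * (L ^ E / N) * M + 1 ≤ 5 * B2 * L ^ (A + E) := by
    have e3 : 2 * (L ^ E / N) * M = 4 * L ^ E * (X / N) := by
      rw [hMr]
      ring
    have e4 : (X : ℝ) / N ≤ B2 * L ^ A := by
      rw [div_le_iff₀ hN0]
      exact hXL
    have e5 : 1 ≤ B2 * L ^ (A + E) := one_le_mul_of_one_le_of_one_le hB2r (one_le_pow₀ hL1)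
    rw [e3]
    calc 4 * L ^ E * (X / N) + 1 ≤ 4 * L ^ E * (B2 * L ^ A) + B2 * L ^ (A + E) :=
          add_le_add (mul_le_mul_of_nonneg_left e4 (by positivity)) e5
      _ = 5 * B2 * L ^ (A + E) := by rw [pow_add]; ring
  have e3 : L ^ E * (2 * κ * L ^ E + 1) * (2 * (L ^ E / N) * M + 1) ≤ 15 * B2 * L ^ (2 * A + 3 * E) := by
    calc L ^ E * (2 * κ * L ^ E + 1) * (2 * (L ^ E / N) * M + 1) ≤ L ^ E * (3 * L ^ (A + E)) * (5 * B2 * L ^ (A + E)) := by
          apply mul_le_mul _ e2 (by positivity) (by positivity)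
          exact mul_le_mul_of_nonneg_left e1 (by positivity)
      _ = 15 * B2 * L ^ (2 * A + 3 * E) := by
          rw [show 2 * A + 3 * E = E + (A + E) + (A + E) by ring]
          simp only [pow_add]
          ring
  have e4 : (X / L ^ U') ^ 2 / M = X / (2 * L ^ (2 * U')) := by
    rw [hMr, div_pow, ← pow_mul, mul_comm U' 2]
    field_simp
  have e5 : L ^ E * (2 * κ * L ^ E + 1) * (2 * (L ^ E / N) * M + 1) * (X / L ^ U') ^ 2 / M ≤
      8 * B2 * X / L ^ (2 * V + 2 * A + 2) := by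
    rw [mul_div_assoc, e4]
    calc L ^ E * (2 * κ * L ^ E + 1) * (2 * (L ^ E / N) * M + 1) * (X / (2 * L ^ (2 * U'))) ≤
          15 * B2 * L ^ (2 * A + 3 * E) * (X / (2 * L ^ (2 * U'))) := mul_le_mul_of_nonneg_right e3 (by positivity)
      _ ≤ 15 * B2 * L ^ (2 * A + 3 * E) * (X / (2 * L ^ ((2 * A + 3 * E) + (2 * V + 2 * A + 2)))) := by
          apply mul_le_mul_of_nonneg_left _ (by positivity)
          apply div_le_div_of_nonneg_left hX0.le (by positivity)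
          apply mul_le_mul_of_nonneg_left _ (by norm_num)
          exact pow_le_pow_right₀ hL1 (by omega)
      _ = (15 / 2) * (B2 * X / L ^ (2 * V + 2 * A + 2)) := by
          rw [pow_add L (2 * A + 3 * E)]
          field_simp
      _ ≤ 8 * (B2 * X / L ^ (2 * V + 2 * A + 2)) := by
          apply mul_le_mul_of_nonneg_right (by norm_num) (by positivity)
      _ = _ := by ring
  have hYr : (Y : ℝ) ≤ B2 * L ^ A * N := le_trans (by exact_mod_cast hYX) hXL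
  calc 1 ^ 2 * (Y : ℝ) * (1 / L ^ (2 * V + 2 * A + 1) * X +
        L ^ E * (2 * κ * L ^ E + 1) * (2 * (L ^ E / N) * M + 1) * (X / L ^ U') ^ 2 / M)
      ≤ 1 ^ 2 * (B2 * L ^ A * N) * (1 / L ^ (2 * V + 2 * A + 1) * (B2 * L ^ A * N) + 8 * B2 * (B2 * L ^ A * N) / L ^ (2 * V + 2 * A + 2)) := by
        apply mul_le_mul
        · linarith
        · apply add_le_add
          · exact mul_le_mul_of_nonneg_left hXL (by positivity)
          · refine e5.trans ?_
            apply div_le_div_of_nonneg_right _ (by positivity)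
            exact mul_le_mul_of_nonneg_left hXL (by positivity)
        · positivity
        · positivity
    _ = (N / L ^ V) ^ 2 * ((B2 : ℝ) ^ 2 / L + 8 * (B2 : ℝ) ^ 3 / L ^ 2) := by
        rw [show 2 * V + 2 * A + 1 = V + V + A + A + 1 by ring, show 2 * V + 2 * A + 2 = V + V + A + A + 2 by ring]
        simp only [pow_add]
        field_simp
    _ ≤ (N / L ^ V) ^ 2 * 1 := by
        apply mul_le_mul_of_nonneg_left _ (by positivity)
        have e6 : (B2 : ℝ) ^ 2 / L + 8 * (B2 : ℝ) ^ 3 / L ^ 2 ≤ (B2 : ℝ) ^ 2 / L + 8 * (B2 : ℝ) ^ 3 / L := by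
          apply add_le_add le_rfl
          apply div_le_div_of_nonneg_left (by positivity) hL0
          nlinarith
        refine e6.trans ?_
        rw [← add_div, div_le_one hL0]
        linarith
    _ = (N / L ^ V) ^ 2 := mul_one _

end Pool.Agent.N699.GC
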