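import Pool.Agent.N699.GC.Sq

set_option autoImplicit false

/-! The variance formula for a good shift. -/

namespace Pool.Agent.N699.GC
open Finset
open Pool.Agent.H373R2.T7

/-- the square of a sum -/
lemma expand (J S : Finset ℕ) (T : ℕ → ℕ → ℂ) :
    |∑ x ∈ S, ‖∑ j ∈ J, T j x‖ ^ 2 - ∑ j ∈ J, ∑ x ∈ S, ‖T j x‖ ^ 2| ≤
      ∑ i ∈ J, ∑ j ∈ J.filter (fun j => j ≠ i), ‖∑ x ∈ S, T i x * (starRingEnd ℂ) (T j x)‖ := by
  have h1 : ((∑ x ∈ S, ‖∑ j ∈ J, T j x‖ ^ 2 - ∑ j ∈ J, ∑ x ∈ S, ‖T j x‖ ^ 2 : ℝ) : ℂ) =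
      ∑ i ∈ J, ∑ j ∈ J.filter (fun j => j ≠ i), ∑ x ∈ S, T i x * (starRingEnd ℂ) (T j x) := by
    push_cast
    have e1 : ∀ x ∈ S, ((‖∑ j ∈ J, T j x‖ : ℝ) : ℂ) ^ 2 = ∑ i ∈ J, ∑ j ∈ J, T i x * (starRingEnd ℂ) (T j x) := by
      intro x _
      rw [← Complex.mul_conj', map_sum, sum_mul_sum]
    have e2 : ∀ j ∈ J, ∀ x ∈ S, ((‖T j x‖ : ℝ) : ℂ) ^ 2 = T j x * (starRingEnd ℂ) (T j x) := by
      intro j _ x _
      rw [← Complex.mul_conj']
    rw [sum_congr rfl e1, sum_congr rfl fun j hj => sum_congr rfl (e2 j hj), sum_comm, ← sum_sub_distrib]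
    apply sum_congr rfl
    intro i hi
    rw [sum_comm]
    have e3 := sum_filter_add_sum_filter_not J (fun j => j ≠ i) (fun j => ∑ x ∈ S, T i x * (starRingEnd ℂ) (T j x))
    rw [← e3]
    have e4 : J.filter (fun j => ¬ j ≠ i) = {i} := by
      ext j
      rw [mem_filter, mem_singleton, not_not]
      constructor
      · intro h; exact h.2
      · intro h; rw [h]; exact ⟨hi, rfl⟩
    rw [e4, sum_singleton]
    ring
  rw [← Real.norm_eq_abs, ← Complex.norm_real, h1]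
  refine (norm_sum_le _ _).trans (sum_le_sum fun i _ => norm_sum_le _ _)

lemma muC_conj (n : ℕ) : (starRingEnd ℂ) (muC n) = muC n := by
  unfold muC
  exact map_intCast (starRingEnd ℂ) _

/-- different multiples of a good shift -/
lemma two_pts (U N K Y v : ℕ) (hv : Gd U N K Y v) (i j m m' x₀ x₁ : ℕ) (hi : i ≤ K) (hj : j ≤ K)
    (hij : i ≠ j) (hm : m ≤ K) (hm' : m' ≤ K) (hx : x₀ ≤ x₁) (hY : x₁ + K * v ≤ Y) :
    ‖∑ x ∈ Ioc x₀ x₁, muC (x + i * v + m) * muC (x + j * v + m')‖ ≤ N / Real.log N ^ U := by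
  have key : ∀ i j m m' : ℕ, i < j → i ≤ K → j ≤ K → m ≤ K → m' ≤ K →
      ‖∑ x ∈ Ioc x₀ x₁, muC (x + i * v + m) * muC (x + j * v + m')‖ ≤ N / Real.log N ^ U := by
    intro i j m m' hij hi hj hm hm'
    have h1 := hv (j - i) m m' (x₀ + i * v) (x₁ + i * v) (by omega) (by omega) hm hm' (by omega) (by
      have : i * v ≤ K * v := Nat.mul_le_mul_right _ hi
      omega)
    refine le_trans (le_of_eq ?_) h1
    congr 1
    have e1 : Ioc (x₀ + i * v) (x₁ + i * v) = (Ioc x₀ x₁).map (addRightEmbedding (i * v)) := by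
      rw [map_add_right_Ioc]
    rw [e1, sum_map]
    apply sum_congr rfl
    intro x _
    rw [addRightEmbedding_apply]
    congr 2
    obtain ⟨k, rfl⟩ : ∃ k, j = i + k := ⟨j - i, by omega⟩
    rw [Nat.add_sub_cancel_left]
    ring
  rcases lt_or_gt_of_ne hij with h | h
  · exact key i j m m' h hi hj hm hm'
  · refine le_trans (le_of_eq ?_) (key j i m' m h hj hi hm' hm)
    congr 1
    apply sum_congr rfl
    intro x _
    ring

/-- the sums over short intervals at different multiples of a good shift are uncorrelated -/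
lemma uncor (U N K Y v : ℕ) (hv : Gd U N K Y v) (H h : ℕ) (hH : H ≤ K) (hh : h ≤ K) (x₀ x₁ : ℕ) (hx : x₀ ≤ x₁)
    (hY : x₁ + K * v ≤ Y) (a : ℕ → ℕ → ℂ) (ha : ∀ j m, ‖a j m‖ ≤ 1) (hN : 0 ≤ N / Real.log N ^ U) :
    |∑ x ∈ Ioc x₀ x₁, ‖∑ j ∈ Icc 1 H, ∑ m ∈ range h, a j m * muC (x + j * v + m)‖ ^ 2 -
      ∑ j ∈ Icc 1 H, ∑ x ∈ Ioc x₀ x₁, ‖∑ m ∈ range h, a j m * muC (x + j * v + m)‖ ^ 2| ≤
    (H : ℝ) * H * (h * h * (N / Real.log N ^ U)) := by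
  refine (expand (Icc 1 H) (Ioc x₀ x₁) (fun j x => ∑ m ∈ range h, a j m * muC (x + j * v + m))).trans ?_
  have h1 : ∀ i ∈ Icc 1 H, ∀ j ∈ (Icc 1 H).filter (fun j => j ≠ i),
      ‖∑ x ∈ Ioc x₀ x₁, (∑ m ∈ range h, a i m * muC (x + i * v + m)) *
        (starRingEnd ℂ) (∑ m ∈ range h, a j m * muC (x + j * v + m))‖ ≤ h * h * (N / Real.log N ^ U) := by
    intro i hi j hj
    rw [mem_filter] at hj
    rw [mem_Icc] at hi hj
    have e1 : ∑ x ∈ Ioc x₀ x₁, (∑ m ∈ range h, a i m * muC (x + i * v + m)) *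
        (starRingEnd ℂ) (∑ m ∈ range h, a j m * muC (x + j * v + m)) =
        ∑ m ∈ range h, ∑ m' ∈ range h, (a i m * (starRingEnd ℂ) (a j m')) *
          ∑ x ∈ Ioc x₀ x₁, muC (x + i * v + m) * muC (x + j * v + m') := by
      have e2 : ∀ x ∈ Ioc x₀ x₁, (∑ m ∈ range h, a i m * muC (x + i * v + m)) *
        (starRingEnd ℂ) (∑ m ∈ range h, a j m * muC (x + j * v + m)) =
          ∑ m ∈ range h, ∑ m' ∈ range h, (a i m * (starRingEnd ℂ) (a j m')) * (muC (x + i * v + m) * muC (x + j * v + m')) := by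
        intro x _
        rw [map_sum, sum_mul_sum]
        apply sum_congr rfl
        intro m _
        apply sum_congr rfl
        intro m' _
        rw [map_mul, muC_conj]
        ring
      rw [sum_congr rfl e2, sum_comm]
      apply sum_congr rfl
      intro m _
      rw [sum_comm]
      apply sum_congr rfl
      intro m' _
      rw [mul_sum]
    rw [e1]
    refine (norm_sum_le _ _).trans ((sum_le_sum fun m hm => (norm_sum_le _ _).trans (sum_le_sum fun m' hm' => ?_)).trans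
      (le_of_eq (?_ : ∑ _m ∈ range h, ∑ _m' ∈ range h, (N / Real.log N ^ U) = _)))
    · rw [mem_range] at hm hm'
      rw [norm_mul, norm_mul, RCLike.norm_conj]
      have h2 := two_pts U N K Y v hv i j m m' x₀ x₁ (by omega) (by omega) (fun h => hj.2 h.symm) (by omega) (by omega) hx hY
      calc ‖a i m‖ * ‖a j m'‖ * ‖∑ x ∈ Ioc x₀ x₁, muC (x + i * v + m) * muC (x + j * v + m')‖ ≤ 1 * (N / Real.log N ^ U) := by
            apply mul_le_mul _ h2 (norm_nonneg _) zero_le_one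
            exact mul_le_one₀ (ha i m) (norm_nonneg _) (ha j m')
        _ = _ := one_mul _
    · simp only [sum_const, card_range, nsmul_eq_mul]
      ring
  refine (sum_le_sum fun i hi => sum_le_sum (h1 i hi)).trans ?_
  have h2 : ∀ i ∈ Icc 1 H, ∑ _j ∈ (Icc 1 H).filter (fun j => j ≠ i), (h : ℝ) * h * (N / Real.log N ^ U) ≤
      H * (h * h * (N / Real.log N ^ U)) := by
    intro i _
    rw [sum_const, nsmul_eq_mul]
    apply mul_le_mul_of_nonneg_right _ (by positivity)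
    have := card_filter_le (Icc 1 H) (fun j => j ≠ i)
    rw [Nat.card_Icc, Nat.add_sub_cancel] at this
    exact_mod_cast this
  refine (sum_le_sum h2).trans ?_
  rw [sum_const, nsmul_eq_mul, Nat.card_Icc, Nat.add_sub_cancel]
  exact le_of_eq (by ring)

/-- the variance formula -/
lemma vari (U N K Y v : ℕ) (hv : Gd U N K Y v) (hK1 : 1 ≤ K) (H : ℕ) (hH : H ≤ K) (x₀ x₁ : ℕ) (hx : x₀ ≤ x₁)
    (hY : x₁ + K * v ≤ Y) (a : ℕ → ℂ) (ha : ∀ j, ‖a j‖ ≤ 1) (hN : 0 ≤ N / Real.log N ^ U) :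
    |∑ x ∈ Ioc x₀ x₁, ‖∑ j ∈ Icc 1 H, a j * muC (x + j * v)‖ ^ 2 -
      6 / Real.pi ^ 2 * ((x₁ : ℝ) - x₀) * ∑ j ∈ Icc 1 H, ‖a j‖ ^ 2| ≤
    (H : ℝ) * H * (N / Real.log N ^ U) + H * (10 * Real.sqrt Y) := by
  have h1 := uncor U N K Y v hv H 1 hH hK1 x₀ x₁ hx hY (fun j _ => a j) (fun j _ => ha j) hN
  simp only [sum_range_one, add_zero, Nat.cast_one, one_mul] at h1
  have h2 : |∑ j ∈ Icc 1 H, ∑ x ∈ Ioc x₀ x₁, ‖a j * muC (x + j * v)‖ ^ 2 -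
      6 / Real.pi ^ 2 * ((x₁ : ℝ) - x₀) * ∑ j ∈ Icc 1 H, ‖a j‖ ^ 2| ≤ H * (10 * Real.sqrt Y) := by
    rw [mul_sum, ← sum_sub_distrib]
    refine (abs_sum_le_sum_abs _ _).trans ?_
    have e1 : ∀ j ∈ Icc 1 H, |∑ x ∈ Ioc x₀ x₁, ‖a j * muC (x + j * v)‖ ^ 2 - 6 / Real.pi ^ 2 * ((x₁ : ℝ) - x₀) * ‖a j‖ ^ 2| ≤
        10 * Real.sqrt Y := by
      intro j hj
      rw [mem_Icc] at hj
      have e2 : ∑ x ∈ Ioc x₀ x₁, ‖a j * muC (x + j * v)‖ ^ 2 = ‖a j‖ ^ 2 * ∑ n ∈ Ioc (x₀ + j * v) (x₁ + j * v), ‖muC n‖ ^ 2 := by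
        have e3 : Ioc (x₀ + j * v) (x₁ + j * v) = (Ioc x₀ x₁).map (addRightEmbedding (j * v)) := by
          rw [map_add_right_Ioc]
        rw [e3, sum_map, mul_sum]
        apply sum_congr rfl
        intro x _
        rw [addRightEmbedding_apply, norm_mul, mul_pow]
      have e4 := sq_int (x₀ + j * v) (x₁ + j * v) (by omega)
      rw [e2]
      have e5 : ‖a j‖ ^ 2 * ∑ n ∈ Ioc (x₀ + j * v) (x₁ + j * v), ‖muC n‖ ^ 2 - 6 / Real.pi ^ 2 * ((x₁ : ℝ) - x₀) * ‖a j‖ ^ 2 =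
          ‖a j‖ ^ 2 * (∑ n ∈ Ioc (x₀ + j * v) (x₁ + j * v), ‖muC n‖ ^ 2 -
            6 / Real.pi ^ 2 * (((x₁ + j * v : ℕ) : ℝ) - ((x₀ + j * v : ℕ) : ℝ))) := by
        push_cast
        ring
      rw [e5, abs_mul, abs_of_nonneg (by positivity : 0 ≤ ‖a j‖ ^ 2)]
      have e6 : ‖a j‖ ^ 2 ≤ 1 := pow_le_one₀ (norm_nonneg _) (ha j)
      have e7 : Real.sqrt ((x₁ + j * v : ℕ) : ℝ) ≤ Real.sqrt Y := by
        apply Real.sqrt_le_sqrt
        have : j * v ≤ K * v := Nat.mul_le_mul_right _ (by omega)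
        exact_mod_cast (by omega : x₁ + j * v ≤ Y)
      calc ‖a j‖ ^ 2 * |_| ≤ 1 * (10 * Real.sqrt ((x₁ + j * v : ℕ) : ℝ)) := mul_le_mul e6 e4 (abs_nonneg _) zero_le_one
        _ ≤ 10 * Real.sqrt Y := by linarith
    refine (sum_le_sum e1).trans ?_
    rw [sum_const, nsmul_eq_mul, Nat.card_Icc, Nat.add_sub_cancel]
  have h3 := abs_add_le (∑ x ∈ Ioc x₀ x₁, ‖∑ j ∈ Icc 1 H, a j * muC (x + j * v)‖ ^ 2 -
      ∑ j ∈ Icc 1 H, ∑ x ∈ Ioc x₀ x₁, ‖a j * muC (x + j * v)‖ ^ 2)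
      (∑ j ∈ Icc 1 H, ∑ x ∈ Ioc x₀ x₁, ‖a j * muC (x + j * v)‖ ^ 2 -
      6 / Real.pi ^ 2 * ((x₁ : ℝ) - x₀) * ∑ j ∈ Icc 1 H, ‖a j‖ ^ 2)
  rw [sub_add_sub_cancel] at h3
  linarith

end Pool.Agent.N699.GC
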