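import Pool.Agent.N699.GC.Cor

set_option autoImplicit false

/-! Almost all shifts are good. -/

namespace Pool.Agent.N699.GC
open Finset
open Pool.Agent.H807R2.Dav
open Pool.Agent.H373R2.T7
open Pool.Agent.N699.RP

/-- the correlations on all the intervals are small -/
def Gd (U N K Y v : ℕ) : Prop := ∀ κ s t a b : ℕ, 1 ≤ κ → κ ≤ K → s ≤ K → t ≤ K → a ≤ b → b ≤ Y →
  ‖∑ y ∈ Ioc a b, muC (y + s) * muC (y + (t + κ * v))‖ ≤ N / Real.log N ^ U

/-- Cauchy-Schwarz for a probability measure -/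
lemma cs_prob (Ω : Finset ℕ) (p : ℕ → ℝ) (hp : ∀ v ∈ Ω, 0 ≤ p v) (hp1 : ∑ v ∈ Ω, p v = 1) (f : ℕ → ℝ) (c : ℝ) (hc : 0 ≤ c)
    (h : ∑ v ∈ Ω, p v * f v ^ 2 ≤ c ^ 2) : ∑ v ∈ Ω, p v * f v ≤ c := by
  have h1 : (∑ v ∈ Ω, p v * f v) ^ 2 ≤ (∑ v ∈ Ω, p v) * (∑ v ∈ Ω, p v * f v ^ 2) := by
    apply sum_sq_le_sum_mul_sum_of_sq_eq_mul Ω hp (fun v hv => mul_nonneg (hp v hv) (sq_nonneg _))
    intro v _
    ring
  rw [hp1, one_mul] at h1
  exact le_of_sq_le_sq (h1.trans h) hc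

open Classical in
theorem goodv (A B B1 U : ℕ) (hB : 1 ≤ B) (hB1 : 1 ≤ B1) : ∀ E : ℕ, ∃ N₀ : ℕ, ∀ N, N₀ ≤ N → ∀ (Ω : Finset ℕ) (p : ℕ → ℝ),
    Lw B E (2 * (4 * A + 3 * U + 4) + 2 * A + 1) N Ω p → ∀ K : ℕ, 1 ≤ K → (K : ℝ) ≤ Real.log N ^ A →
    ∑ v ∈ Ω, (if Gd U N K (B1 * K * N) v then 0 else p v) ≤ 1 / Real.log N ^ U := by
  intro E
  obtain ⟨V, hV⟩ : ∃ V, V = 4 * A + 3 * U + 4 := ⟨_, rfl⟩
  rw [← hV]
  obtain ⟨n1, h1⟩ := corr_mu A B (2 * B1) E V hB (by omega)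
  obtain ⟨n2, h2⟩ := ev_L' (16 * (B1 : ℝ) + 4)
  obtain ⟨n3, h3⟩ := log_small (U + 1) 2
  refine ⟨n1 + n2 + n3 + 3, fun N hN Ω p hlaw K hK1 hK => ?_⟩
  have hcor := h1 N (by omega) Ω p hlaw K hK1 hK
  obtain ⟨hp, hp1, hsize, hdec⟩ := hlaw
  have hN1 : 1 ≤ N := by omega
  have hN0 : (0 : ℝ) < N := by exact_mod_cast hN1
  have a2 := h2 N (by omega)
  have a3 := h3 N (by omega)
  obtain ⟨L, hLd⟩ : ∃ L, L = Real.log (N : ℝ) := ⟨_, rfl⟩
  rw [← hLd] at a2 a3 hK hcor ⊢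
  have hB1r : (1 : ℝ) ≤ B1 := by exact_mod_cast hB1
  have hL1 : 1 ≤ L := by linarith
  have hL0 : 0 < L := by linarith
  have hKr : (1 : ℝ) ≤ K := by exact_mod_cast hK1
  have hLA : 1 ≤ L ^ A := one_le_pow₀ hL1
  obtain ⟨D, hD⟩ : ∃ D, D = ⌊N / L ^ (U + 1)⌋₊ := ⟨_, rfl⟩
  have hq2 : 2 ≤ (N : ℝ) / L ^ (U + 1) := by
    rw [le_div_iff₀ (by positivity)]
    exact a3
  have hDle : (D : ℝ) ≤ N / L ^ (U + 1) := by rw [hD]; exact Nat.floor_le (by positivity)
  have hDge : (N : ℝ) / L ^ (U + 1) / 2 ≤ D := by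
    have := Nat.lt_floor_add_one ((N : ℝ) / L ^ (U + 1))
    rw [← hD] at this
    linarith
  have hD1 : 1 ≤ D := by
    have : (1 : ℝ) ≤ D := by linarith
    exact_mod_cast this
  have hD0 : (0 : ℝ) < D := by exact_mod_cast hD1
  obtain ⟨Y, hY⟩ : ∃ Y, Y = B1 * K * N := ⟨_, rfl⟩
  obtain ⟨R, hR⟩ : ∃ R, R = Y / D + 1 := ⟨_, rfl⟩
  have hRD : Y ≤ R * D := by
    rw [hR, add_mul, one_mul]
    have := Nat.div_add_mod Y D
    have := Nat.mod_lt Y (show D > 0 by omega)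
    nlinarith
  have hDN : D ≤ N := by
    have : (D : ℝ) ≤ N := hDle.trans (div_le_self hN0.le (one_le_pow₀ hL1))
    exact_mod_cast this
  have hRD2 : R * D ≤ 2 * B1 * K * N := by
    rw [hR, add_mul, one_mul]
    have e1 := Nat.div_mul_le_self Y D
    have e2 : N ≤ B1 * K * N := Nat.le_mul_of_pos_left _ (Nat.mul_pos hB1 hK1)
    calc Y / D * D + D ≤ B1 * K * N + B1 * K * N := by rw [← hY]; rw [← hY] at e2; omega
      _ = 2 * B1 * K * N := by ring
  have hRr : (R : ℝ) ≤ 4 * B1 * L ^ A * L ^ (U + 1) := by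
    have e1 : ((Y / D : ℕ) : ℝ) ≤ (Y : ℝ) / D := Nat.cast_div_le
    have e2 : (Y : ℝ) / D ≤ 2 * B1 * K * L ^ (U + 1) := by
      rw [div_le_iff₀ hD0]
      calc (Y : ℝ) = 2 * B1 * K * L ^ (U + 1) * (N / L ^ (U + 1) / 2) := by
            rw [hY]
            push_cast
            field_simp
        _ ≤ _ := mul_le_mul_of_nonneg_left hDge (by positivity)
    have e3 : (R : ℝ) = ((Y / D : ℕ) : ℝ) + 1 := by rw [hR]; push_cast; ring
    have e4 : 2 * B1 * (K : ℝ) * L ^ (U + 1) ≤ 2 * B1 * L ^ A * L ^ (U + 1) := by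
      apply mul_le_mul_of_nonneg_right _ (by positivity)
      exact mul_le_mul_of_nonneg_left hK (by positivity)
    have e5 : 1 ≤ 2 * B1 * L ^ A * L ^ (U + 1) := by
      have : 1 ≤ L ^ A * L ^ (U + 1) := one_le_mul_of_one_le_of_one_le hLA (one_le_pow₀ hL1)
      nlinarith
    rw [e3]
    linarith
  -- the sum of all the correlations
  obtain ⟨S, hS⟩ : ∃ S : ℕ × ℕ × ℕ × ℕ → ℕ → ℝ, S = fun x v =>
    ‖∑ y ∈ Ioc (x.2.2.2 * D) ((x.2.2.2 + 1) * D), muC (y + x.2.1) * muC (y + (x.2.2.1 + x.1 * v))‖ := ⟨_, rfl⟩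
  obtain ⟨I, hI⟩ : ∃ I : Finset (ℕ × ℕ × ℕ × ℕ), I = Icc 1 K ×ˢ range (K + 1) ×ˢ range (K + 1) ×ˢ range R := ⟨_, rfl⟩
  have hSn : ∀ x v, 0 ≤ S x v := by
    intro x v
    rw [hS]
    exact norm_nonneg _
  have hone : ∀ x ∈ I, ∑ v ∈ Ω, p v * S x v ≤ N / L ^ V := by
    intro x hx
    rw [hI, mem_product, mem_product, mem_product, mem_Icc, mem_range, mem_range, mem_range] at hx
    apply cs_prob Ω p hp hp1 _ _ (by positivity)
    have h4 := hcor x.1 x.2.2.1 hx.1.1 hx.1.2 (by omega) (R * D) (by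
      calc R * D ≤ 2 * B1 * K * N := hRD2
        _ = _ := by ring) (fun y => if y ∈ Ioc (x.2.2.2 * D) ((x.2.2.2 + 1) * D) then muC (y + x.2.1) else 0) (by
      intro n
      split_ifs
      · exact muC_norm _
      · rw [norm_zero]; exact zero_le_one)
    refine le_trans (le_of_eq ?_) h4
    apply sum_congr rfl
    intro v _
    congr 2
    rw [hS]
    simp only
    congr 1
    simp only [ite_mul, zero_mul]
    rw [← sum_filter]
    apply sum_congr _ (fun _ _ => rfl)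
    ext y
    rw [mem_filter, mem_Ioc, mem_Icc]
    have e1 : (x.2.2.2 + 1) * D ≤ R * D := Nat.mul_le_mul_right _ (by omega)
    constructor
    · intro h; exact ⟨⟨by omega, by omega⟩, h⟩
    · intro h; exact h.2
  have htot : ∑ v ∈ Ω, p v * ∑ x ∈ I, S x v ≤ I.card * (N / L ^ V) := by
    have e1 : ∑ v ∈ Ω, p v * ∑ x ∈ I, S x v = ∑ x ∈ I, ∑ v ∈ Ω, p v * S x v := by
      simp_rw [mul_sum]
      exact sum_comm
    rw [e1]
    refine (sum_le_sum hone).trans ?_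
    rw [sum_const, nsmul_eq_mul]
  have hIc : (I.card : ℝ) ≤ 16 * B1 * L ^ (4 * A + U + 1) := by
    rw [hI, card_product, card_product, card_product, Nat.card_Icc, card_range, card_range, Nat.add_sub_cancel]
    push_cast
    have e1 : (K : ℝ) + 1 ≤ 2 * L ^ A := by linarith
    calc (K : ℝ) * ((K + 1) * ((K + 1) * R)) ≤ L ^ A * ((2 * L ^ A) * ((2 * L ^ A) * (4 * B1 * L ^ A * L ^ (U + 1)))) := by
          gcongr
      _ = 16 * B1 * L ^ (4 * A + U + 1) := by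
          rw [show 4 * A + U + 1 = A + A + A + A + (U + 1) by ring]
          simp only [pow_add]
          ring
  -- a shift with a small sum is good
  have hgood : ∀ v, ∑ x ∈ I, S x v ≤ N / L ^ (U + 1) → Gd U N K (B1 * K * N) v := by
    intro v hv κ s t a b hκ1 hκK hs ht hab hb
    rw [← hLd]
    have h5 := intervals (fun y => muC (y + s) * muC (y + (t + κ * v))) (fun n => by
      rw [norm_mul]
      exact mul_le_one₀ (muC_norm _) (norm_nonneg _) (muC_norm _)) D R hD1 a b hab (by rw [← hY] at hb; omega)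
    refine h5.trans ?_
    have h6 : ∑ m ∈ range R, ‖∑ y ∈ Ioc (m * D) ((m + 1) * D), muC (y + s) * muC (y + (t + κ * v))‖ ≤ ∑ x ∈ I, S x v := by
      have e1 : ∑ m ∈ range R, ‖∑ y ∈ Ioc (m * D) ((m + 1) * D), muC (y + s) * muC (y + (t + κ * v))‖ =
          ∑ x ∈ (range R).image (fun m => (κ, s, t, m)), S x v := by
        rw [sum_image (fun a _ b _ h => by simpa using h), hS]
      rw [e1]
      apply sum_le_sum_of_subset_of_nonneg
      · intro x hx
        rw [mem_image] at hx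
        obtain ⟨m, hm, rfl⟩ := hx
        rw [hI, mem_product, mem_product, mem_product, mem_Icc, mem_range, mem_range]
        exact ⟨⟨hκ1, hκK⟩, by simp only; omega, by simp only; omega, hm⟩
      · intro x _ _
        exact hSn x v
    have h7 : 2 * (N / L ^ (U + 1) + N / L ^ (U + 1)) ≤ N / L ^ U := by
      rw [pow_succ, le_div_iff₀ (by positivity)]
      have : 2 * (N / (L ^ U * L) + N / (L ^ U * L)) * L ^ U = 4 * N / L := by
        field_simp
        norm_num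
      rw [this, div_le_iff₀ hL0]
      nlinarith
    linarith [h6, hDle, hv]
  -- the inequality of Markov
  have hmark : ∑ v ∈ Ω, (if Gd U N K (B1 * K * N) v then 0 else p v) ≤ (∑ v ∈ Ω, p v * ∑ x ∈ I, S x v) * (L ^ (U + 1) / N) := by
    rw [sum_mul]
    apply sum_le_sum
    intro v hv
    have hs0 : 0 ≤ ∑ x ∈ I, S x v := sum_nonneg fun x _ => hSn x v
    have hp0 := hp v hv
    split_ifs with hg
    · positivity
    · have h8 : N / L ^ (U + 1) ≤ ∑ x ∈ I, S x v := by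
        by_contra hcon
        exact hg (hgood v (not_le.1 hcon).le)
      have h9 : 1 ≤ (∑ x ∈ I, S x v) * (L ^ (U + 1) / N) := by
        rw [div_le_iff₀ (by positivity)] at h8
        rw [← mul_div_assoc, le_div_iff₀ hN0, one_mul]
        exact h8
      calc p v = p v * 1 := (mul_one _).symm
        _ ≤ p v * ((∑ x ∈ I, S x v) * (L ^ (U + 1) / N)) := mul_le_mul_of_nonneg_left h9 hp0
        _ = _ := by ring
  refine hmark.trans ?_
  calc (∑ v ∈ Ω, p v * ∑ x ∈ I, S x v) * (L ^ (U + 1) / N) ≤ (16 * B1 * L ^ (4 * A + U + 1) * (N / L ^ V)) * (L ^ (U + 1) / N) := by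
        apply mul_le_mul_of_nonneg_right _ (by positivity)
        exact htot.trans (mul_le_mul_of_nonneg_right hIc (by positivity))
    _ = 1 / L ^ U * (16 * B1 / L ^ 2) := by
        rw [hV, show 4 * A + 3 * U + 4 = (4 * A + U + 1) + (U + 1) + U + 2 by ring]
        rw [pow_add L ((4 * A + U + 1) + (U + 1) + U), pow_add L ((4 * A + U + 1) + (U + 1)), pow_add L (4 * A + U + 1) (U + 1)]
        field_simp
    _ ≤ 1 / L ^ U * 1 := by
        apply mul_le_mul_of_nonneg_left _ (by positivity)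
        rw [div_le_one (by positivity)]
        nlinarith
    _ = _ := mul_one _

end Pool.Agent.N699.GC
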