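import Pool.Agent.N699.GC.Sgen

set_option autoImplicit false

/-! The primes in the translates of a random shift. -/

namespace Pool.Agent.N699.GC
open Finset
open Pool.Agent.H807R2.Dav
open Pool.Agent.H373R2.T7
open Pool.Agent.N699.RP
open ArithmeticFunction (vonMangoldt)

/-- `log L` is small -/
lemma loglog_small (c η : ℝ) (hη : 0 < η) : ∃ n0 : ℕ, ∀ N : ℕ, n0 ≤ N → c * Real.log (Real.log N) ≤ η * Real.log N := by
  have h1 := Real.isLittleO_log_id_atTop.def (c := η / (|c| + 1)) (by positivity)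
  have h2 := h1.and (Filter.eventually_ge_atTop (1 : ℝ))
  have h3 := (Real.tendsto_log_atTop.comp (tendsto_natCast_atTop_atTop (R := ℝ))).eventually h2
  rw [Filter.eventually_atTop] at h3
  obtain ⟨n0, h3⟩ := h3
  refine ⟨n0, fun N hN => ?_⟩
  obtain ⟨h4, h5⟩ := h3 N hN
  simp only [Function.comp_apply, id_eq] at h4 h5
  have h6 : 0 ≤ Real.log (Real.log N) := Real.log_nonneg h5
  rw [Real.norm_of_nonneg h6, Real.norm_of_nonneg (by linarith), div_mul_eq_mul_div, le_div_iff₀ (by positivity)] at h4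
  have h7 := le_abs_self c
  nlinarith

/-- Markov's inequality for a finite set -/
lemma markov (S : Finset ℕ) (f : ℕ → ℝ) (hf : ∀ x ∈ S, 0 ≤ f x) (t T : ℝ) (ht : 0 < t) (hT : ∑ x ∈ S, f x ≤ T) :
    ((S.filter fun x => t < f x).card : ℝ) ≤ T / t := by
  rw [le_div_iff₀ ht]
  calc ((S.filter fun x => t < f x).card : ℝ) * t = ∑ _x ∈ S.filter (fun x => t < f x), t := by rw [sum_const, nsmul_eq_mul]
    _ ≤ ∑ x ∈ S.filter (fun x => t < f x), f x := sum_le_sum fun x hx => (mem_filter.1 hx).2.le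
    _ ≤ ∑ x ∈ S, f x := sum_le_sum_of_subset_of_nonneg (filter_subset _ _) fun x hx _ => hf x hx
    _ ≤ T := hT

/-- the averages of the von Mangoldt function in the mean square -/
theorem lam_sq (B E U : ℕ) : ∃ N₀ : ℕ, ∀ N, N₀ ≤ N → ∀ (Ω : Finset ℕ) (p : ℕ → ℝ), Lz B E (U + 2) N Ω p →
    ∑ x ∈ Icc 1 N, |∑ v ∈ Ω, p v * vonMangoldt (x + v) - 1| ^ 2 ≤ N / Real.log N ^ U := by
  obtain ⟨n1, h1⟩ := smooth_gen B E U
  obtain ⟨n2, h2⟩ := lam_ap 0 (3 * E + U + 1)
  obtain ⟨n3, h3⟩ := ev_L' 1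
  refine ⟨n1 + n2 + n3 + 3, fun N hN Ω p hlaw => ?_⟩
  obtain ⟨X, hX⟩ : ∃ X, X = (B + 1) * N := ⟨_, rfl⟩
  have hNX : N ≤ X := by rw [hX]; exact Nat.le_mul_of_pos_left _ (by omega)
  have hlX : 1 ≤ Real.log (X : ℝ) := h3 X (by omega)
  have h4 := h1 N (by omega) Ω p hlaw (fun n => ((vonMangoldt n - 1 : ℝ) : ℂ)) (by
    intro n hn
    rw [← hX] at hn ⊢
    rw [mem_Icc] at hn
    rw [Complex.norm_real, Real.norm_eq_abs, abs_le]
    have e1 := ArithmeticFunction.vonMangoldt_nonneg (n := n)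
    have e2 : vonMangoldt n ≤ Real.log X := (ArithmeticFunction.vonMangoldt_le_log).trans
      (Real.log_le_log (by exact_mod_cast (by omega : 0 < n)) (by exact_mod_cast hn.2))
    constructor <;> linarith) (by
    intro y hy
    rw [← hX] at hy ⊢
    have e1 := h2 X (by omega) 1 le_rfl (by rw [Nat.cast_one, pow_zero]) 0 y hy
    have e2 : (Icc 1 y).filter (fun n => n ≡ 0 [MOD 1]) = Icc 1 y := by
      apply filter_true_of_mem
      intro n _
      exact Nat.modEq_one
    rw [e2, if_pos (by simp), Nat.totient_one, Nat.cast_one, div_one] at e1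
    have e3 : ∑ n ∈ Icc 1 y, ((vonMangoldt n - 1 : ℝ) : ℂ) = ((∑ n ∈ Icc 1 y, vonMangoldt n - y : ℝ) : ℂ) := by
      push_cast
      rw [sum_sub_distrib, sum_const, Nat.card_Icc, Nat.add_sub_cancel]
      simp
    rw [e3, Complex.norm_real, Real.norm_eq_abs]
    exact e1)
  refine le_trans (le_of_eq ?_) h4
  apply sum_congr rfl
  intro x _
  have e1 : ∑ v ∈ Ω, ((p v : ℝ) : ℂ) * ((vonMangoldt (x + v) - 1 : ℝ) : ℂ) = ((∑ v ∈ Ω, p v * vonMangoldt (x + v) - 1 : ℝ) : ℂ) := by
    have e2 : ∑ v ∈ Ω, p v * vonMangoldt (x + v) - 1 = ∑ v ∈ Ω, p v * (vonMangoldt (x + v) - 1) := by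
      simp only [mul_sub, mul_one, sum_sub_distrib]
      rw [hlaw.2.1]
    rw [e2]
    push_cast
    rfl
  rw [e1, Complex.norm_real, Real.norm_eq_abs]

open Classical in
/-- the number of the primes in almost all translates of a random shift -/
theorem prim_law (B U : ℕ) (ε : ℝ) (hε : 0 < ε) : ∀ E : ℕ, ∃ N₀ : ℕ, ∀ N, N₀ ≤ N → ∀ (Ω : Finset ℕ) (p : ℕ → ℝ),
    Lz B E (3 * U + 5) N Ω p →
    (((Icc 1 N).filter fun x => ¬ (|∑ v ∈ Ω, p v * vonMangoldt (x + v) - 1| ≤ 1 / Real.log N ^ U ∧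
      |Real.log N * ∑ v ∈ Ω, p v * (if (x + v).Prime then 1 else 0) - 1| ≤ ε)).card : ℝ) ≤ N / Real.log N ^ U := by
  intro E
  obtain ⟨η, hη⟩ : ∃ η : ℝ, η = min (ε / 4) (1 / 4) := ⟨_, rfl⟩
  have hη0 : 0 < η := by rw [hη]; exact lt_min (by linarith) (by norm_num)
  have hηε : η ≤ ε / 4 := by rw [hη]; exact min_le_left _ _
  have hη4 : η ≤ 1 / 4 := by rw [hη]; exact min_le_right _ _
  obtain ⟨n1, h1⟩ := lam_sq B E (3 * U + 3)
  obtain ⟨n2, h2⟩ := ev_L' (Real.log (B + 1) / η + 2 / η + Real.log (B + 1) + 4)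
  obtain ⟨n3, h3⟩ := loglog_small (U + 1) η hη0
  obtain ⟨n4, h4⟩ := log_small (4 * U + 6) (16 * (B + 1))
  refine ⟨n1 + n2 + n3 + n4 + 3, fun N hN Ω p hlaw => ?_⟩
  have b1 := h1 N (by omega) Ω p hlaw
  obtain ⟨hp, hp1, hsize, hdec⟩ := hlaw
  have hN1 : 1 ≤ N := by omega
  have hN0 : (0 : ℝ) < N := by exact_mod_cast hN1
  have a2 := h2 N (by omega)
  have a3 := h3 N (by omega)
  have a4 := h4 N (by omega)
  obtain ⟨L, hLd⟩ : ∃ L, L = Real.log (N : ℝ) := ⟨_, rfl⟩
  rw [← hLd] at a2 a3 a4 b1 ⊢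
  have hb0 : (0 : ℝ) ≤ B := Nat.cast_nonneg _
  have hlogB : 0 ≤ Real.log ((B : ℝ) + 1) := Real.log_nonneg (by linarith)
  have hq1 : 0 ≤ Real.log ((B : ℝ) + 1) / η := by positivity
  have hq2 : 0 ≤ 2 / η := by positivity
  have hL4 : 4 ≤ L := by linarith
  have hL1 : 1 ≤ L := by linarith
  have hL0 : 0 < L := by linarith
  have hBη : Real.log ((B : ℝ) + 1) ≤ η * L := by
    have : Real.log ((B : ℝ) + 1) / η ≤ L := by linarith
    rw [div_le_iff₀ hη0] at this
    linarith
  have h2η : 2 ≤ η * L := by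
    have : 2 / η ≤ L := by linarith
    rw [div_le_iff₀ hη0] at this
    linarith
  obtain ⟨X, hX⟩ : ∃ X, X = (B + 1) * N := ⟨_, rfl⟩
  have hX1 : 1 ≤ X := by rw [hX]; exact Nat.mul_pos (by omega) hN1
  have hX0 : (0 : ℝ) < X := by exact_mod_cast hX1
  have hXr : (X : ℝ) = (B + 1) * N := by rw [hX]; push_cast; ring
  have hlX2 : Real.log X ≤ 2 * L := by
    rw [hXr, Real.log_mul (by positivity) hN0.ne', ← hLd]
    linarith
  have hlX0 : 0 ≤ Real.log (X : ℝ) := Real.log_natCast_nonneg X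
  obtain ⟨S, hS⟩ : ∃ S : ℕ → ℝ, S = fun x => ∑ v ∈ Ω, p v * vonMangoldt (x + v) := ⟨_, rfl⟩
  obtain ⟨R, hR⟩ : ∃ R : ℕ → ℝ, R = fun x => ∑ v ∈ Ω, p v * (if (x + v).Prime then 0 else vonMangoldt (x + v)) := ⟨_, rfl⟩
  obtain ⟨P, hP⟩ : ∃ P : ℕ → ℝ, P = fun x => ∑ v ∈ Ω, p v * (if (x + v).Prime then 1 else 0) := ⟨_, rfl⟩
  have hR0 : ∀ x, 0 ≤ R x := by
    intro x
    rw [hR]
    apply sum_nonneg
    intro v hv
    apply mul_nonneg (hp v hv)
    split_ifs
    · exact le_rfl
    · exact ArithmeticFunction.vonMangoldt_nonneg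
  -- the prime powers
  have hRs : ∑ x ∈ Icc 1 N, R x ≤ N / L ^ (2 * U + 2) := by
    have e1 : ∑ x ∈ Icc 1 N, R x = ∑ v ∈ Ω, p v * ∑ x ∈ Icc 1 N, (if (x + v).Prime then 0 else vonMangoldt (x + v)) := by
      rw [hR]
      simp only [mul_sum]
      exact sum_comm
    have e2 : ∀ v ∈ Ω, ∑ x ∈ Icc 1 N, (if (x + v).Prime then 0 else vonMangoldt (x + v)) ≤ 2 * Real.sqrt X * Real.log X := by
      intro v hv
      have e3 : ∑ x ∈ Icc 1 N, (if (x + v).Prime then 0 else vonMangoldt (x + v)) ≤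
          ∑ n ∈ Ioc 0 X, (if n.Prime then 0 else vonMangoldt n) := by
        have e4 : ∑ x ∈ Icc 1 N, (if (x + v).Prime then 0 else vonMangoldt (x + v)) =
            ∑ n ∈ (Icc 1 N).map (addRightEmbedding v), (if n.Prime then 0 else vonMangoldt n) := by
          rw [sum_map]
          rfl
        rw [e4, map_add_right_Icc]
        apply sum_le_sum_of_subset_of_nonneg
        · intro n hn
          rw [mem_Icc] at hn
          rw [mem_Ioc]
          have := hsize v hv
          rw [hX, add_mul, one_mul]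
          omega
        · intro n _ _
          split_ifs
          · exact le_rfl
          · exact ArithmeticFunction.vonMangoldt_nonneg
      refine e3.trans ?_
      have e5 := Chebyshev.abs_psi_sub_theta_le_sqrt_mul_log (x := (X : ℝ)) (by exact_mod_cast hX1)
      refine le_trans (le_of_eq ?_) ((le_abs_self _).trans e5)
      unfold Chebyshev.psi Chebyshev.theta
      rw [Nat.floor_natCast, sum_filter, ← sum_sub_distrib]
      apply sum_congr rfl
      intro n _
      split_ifs with h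
      · rw [ArithmeticFunction.vonMangoldt_apply_prime h, sub_self]
      · rw [sub_zero]
    have e6 : ∑ x ∈ Icc 1 N, R x ≤ 2 * Real.sqrt X * Real.log X := by
      rw [e1]
      calc ∑ v ∈ Ω, p v * ∑ x ∈ Icc 1 N, (if (x + v).Prime then 0 else vonMangoldt (x + v)) ≤
            ∑ v ∈ Ω, p v * (2 * Real.sqrt X * Real.log X) := sum_le_sum fun v hv => mul_le_mul_of_nonneg_left (e2 v hv) (hp v hv)
        _ = 2 * Real.sqrt X * Real.log X := by rw [← sum_mul, hp1, one_mul]
    refine e6.trans ?_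
    have e7 : Real.sqrt X ≤ N / (4 * L ^ (2 * U + 3)) := by
      rw [Real.sqrt_le_left (by positivity), hXr, div_pow, le_div_iff₀ (by positivity)]
      calc ((B : ℝ) + 1) * N * (4 * L ^ (2 * U + 3)) ^ 2 = (16 * (B + 1) * L ^ (4 * U + 6)) * N := by
            rw [mul_pow, ← pow_mul, show (2 * U + 3) * 2 = 4 * U + 6 by ring]
            ring
        _ ≤ N * N := mul_le_mul_of_nonneg_right a4 hN0.le
        _ = (N : ℝ) ^ 2 := by ring
    calc 2 * Real.sqrt X * Real.log X ≤ 2 * (N / (4 * L ^ (2 * U + 3))) * (2 * L) := by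
          apply mul_le_mul _ hlX2 hlX0 (by positivity)
          linarith
      _ = N / L ^ (2 * U + 2) := by
          rw [show 2 * U + 3 = 2 * U + 2 + 1 by ring, pow_succ L (2 * U + 2)]
          field_simp
          norm_num
  -- the exceptional sets
  obtain ⟨B1, hB1⟩ : ∃ B1, B1 = (Icc 1 N).filter fun x => (1 / L ^ (U + 1)) ^ 2 < |S x - 1| ^ 2 := ⟨_, rfl⟩
  obtain ⟨B2, hB2⟩ : ∃ B2, B2 = (Icc 1 N).filter fun x => 1 / L ^ (U + 1) < R x := ⟨_, rfl⟩
  obtain ⟨B3, hB3⟩ : ∃ B3, B3 = (Icc 1 N).filter fun x : ℕ => (x : ℝ) < N / L ^ (U + 1) := ⟨_, rfl⟩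
  have hc1 : (B1.card : ℝ) ≤ N / L ^ (U + 1) := by
    have e1 := markov (Icc 1 N) (fun x => |S x - 1| ^ 2) (fun x _ => by positivity) ((1 / L ^ (U + 1)) ^ 2) (N / L ^ (3 * U + 3))
      (by positivity) (by rw [hS]; exact b1)
    rw [← hB1] at e1
    refine e1.trans (le_of_eq ?_)
    rw [div_pow, one_pow, ← pow_mul, show 3 * U + 3 = (U + 1) + (U + 1) * 2 by ring, pow_add]
    field_simp
  have hc2 : (B2.card : ℝ) ≤ N / L ^ (U + 1) := by
    have e1 := markov (Icc 1 N) R (fun x _ => hR0 x) (1 / L ^ (U + 1)) (N / L ^ (2 * U + 2)) (by positivity) hRs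
    rw [← hB2] at e1
    refine e1.trans (le_of_eq ?_)
    rw [show 2 * U + 2 = (U + 1) + (U + 1) by ring, pow_add]
    field_simp
  have hc3 : (B3.card : ℝ) ≤ N / L ^ (U + 1) := by
    have e1 : B3 ⊆ Icc 1 ⌊(N : ℝ) / L ^ (U + 1)⌋₊ := by
      intro x hx
      rw [hB3, mem_filter, mem_Icc] at hx
      rw [mem_Icc]
      exact ⟨hx.1.1, Nat.le_floor hx.2.le⟩
    have e2 := card_le_card e1
    rw [Nat.card_Icc, Nat.add_sub_cancel] at e2
    exact le_trans (by exact_mod_cast e2) (Nat.floor_le (by positivity))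
  have hsub : ((Icc 1 N).filter fun x => ¬ (|∑ v ∈ Ω, p v * vonMangoldt (x + v) - 1| ≤ 1 / L ^ U ∧
      |L * ∑ v ∈ Ω, p v * (if (x + v).Prime then 1 else 0) - 1| ≤ ε)) ⊆ B1 ∪ (B2 ∪ B3) := by
    intro x hx
    rw [mem_filter] at hx
    obtain ⟨hx1, hx2⟩ := hx
    by_contra hcon
    rw [mem_union, mem_union, hB1, hB2, hB3, mem_filter, mem_filter, mem_filter] at hcon
    simp only [hx1, true_and, not_or, not_lt] at hcon
    obtain ⟨c1, c2, c3⟩ := hcon
    apply hx2
    have d1 : |S x - 1| ≤ 1 / L ^ (U + 1) := le_of_sq_le_sq c1 (by positivity)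
    have d2 : 1 / L ^ (U + 1) ≤ 1 / L ^ U := one_div_le_one_div_of_le (by positivity) (pow_le_pow_right₀ hL1 (by omega))
    refine ⟨?_, ?_⟩
    · have : |∑ v ∈ Ω, p v * vonMangoldt (x + v) - 1| = |S x - 1| := by rw [hS]
      rw [this]
      exact d1.trans d2
    have d3 : 1 / L ^ (U + 1) ≤ 1 / L := by
      apply one_div_le_one_div_of_le hL0
      calc L = L ^ 1 := (pow_one L).symm
        _ ≤ L ^ (U + 1) := pow_le_pow_right₀ hL1 (by omega)
    have d4 : 2 / L ≤ η := by rw [div_le_iff₀ hL0]; exact h2η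
    have d5 : 1 / L + 1 / L = 2 / L := by ring
    have hT1 : |S x - R x - 1| ≤ η := by
      have e1 := abs_le.1 d1
      have e2 := hR0 x
      rw [abs_le]
      constructor <;> linarith [e1.1, e1.2]
    have hx0 : (0 : ℝ) < x := by exact_mod_cast (mem_Icc.1 hx1).1
    have hlx : L - η * L ≤ Real.log x := by
      have e1 : Real.log (N / L ^ (U + 1)) ≤ Real.log x := Real.log_le_log (by positivity) c3
      rw [Real.log_div hN0.ne' (by positivity), Real.log_pow, ← hLd] at e1
      push_cast at e1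
      linarith
    have hT2 : S x - R x = ∑ v ∈ Ω, p v * (if (x + v).Prime then Real.log ((x + v : ℕ) : ℝ) else 0) := by
      rw [hS, hR]
      simp only
      rw [← sum_sub_distrib]
      apply sum_congr rfl
      intro v _
      split_ifs with h
      · rw [ArithmeticFunction.vonMangoldt_apply_prime h]
        ring
      · ring
    have hP0 : 0 ≤ P x := by
      rw [hP]
      apply sum_nonneg
      intro v hv
      apply mul_nonneg (hp v hv)
      split_ifs <;> norm_num
    have hlow : (L - η * L) * P x ≤ S x - R x := by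
      rw [hT2, hP]
      simp only
      rw [mul_sum]
      apply sum_le_sum
      intro v hv
      split_ifs with h
      · have e1 : Real.log x ≤ Real.log ((x + v : ℕ) : ℝ) := Real.log_le_log hx0 (by exact_mod_cast Nat.le_add_right x v)
        have e2 := mul_le_mul_of_nonneg_left (hlx.trans e1) (hp v hv)
        linarith
      · simp
    have hupp : S x - R x ≤ (L + η * L) * P x := by
      rw [hT2, hP]
      simp only
      rw [mul_sum]
      apply sum_le_sum
      intro v hv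
      split_ifs with h
      · have e1 : Real.log ((x + v : ℕ) : ℝ) ≤ L + η * L := by
          have e2 : Real.log ((x + v : ℕ) : ℝ) ≤ Real.log X := by
            apply Real.log_le_log (by exact_mod_cast h.pos)
            have := hsize v hv
            have := (mem_Icc.1 hx1).2
            have e3 : x + v ≤ X := by rw [hX, add_mul, one_mul]; omega
            exact_mod_cast e3
          rw [hXr, Real.log_mul (by positivity) hN0.ne', ← hLd] at e2
          linarith
        have e2 := mul_le_mul_of_nonneg_left e1 (hp v hv)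
        linarith
      · simp
    have hfin : |L * P x - 1| ≤ ε := by
      obtain ⟨t1, t2⟩ := abs_le.1 hT1
      obtain ⟨y, hy⟩ : ∃ y, y = L * P x := ⟨_, rfl⟩
      have s1 : (1 - η) * y ≤ 1 + η := by
        have : (L - η * L) * P x = (1 - η) * y := by rw [hy]; ring
        linarith
      have s2 : 1 - η ≤ (1 + η) * y := by
        have : (L + η * L) * P x = (1 + η) * y := by rw [hy]; ring
        linarith
      rw [← hy, abs_le]
      constructor
      · nlinarith
      · nlinarith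
    rw [hP] at hfin
    exact hfin
  have hcard : (((Icc 1 N).filter fun x => ¬ (|∑ v ∈ Ω, p v * vonMangoldt (x + v) - 1| ≤ 1 / L ^ U ∧
      |L * ∑ v ∈ Ω, p v * (if (x + v).Prime then 1 else 0) - 1| ≤ ε)).card : ℝ) ≤ B1.card + (B2.card + B3.card) := by
    have e1 := (card_le_card hsub).trans (card_union_le _ _)
    have e2 := card_union_le B2 B3
    exact_mod_cast e1.trans (Nat.add_le_add_left e2 _)
  refine hcard.trans ?_
  calc (B1.card : ℝ) + (B2.card + B3.card) ≤ 3 * (N / L ^ (U + 1)) := by linarith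
    _ = N / L ^ U * (3 / L) := by rw [pow_succ]; field_simp
    _ ≤ N / L ^ U * 1 := by
        apply mul_le_mul_of_nonneg_left _ (by positivity)
        rw [div_le_one hL0]
        linarith
    _ = _ := mul_one _

end Pool.Agent.N699.GC
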