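import Pool.Agent.N699.GC.Zarc

set_option autoImplicit false

/-! The average of a function over a random shift whose law has a small Fourier transform off the arc at zero. -/

namespace Pool.Agent.N699.GC
open Finset
open Pool.Agent.H807R2.Dav
open Pool.Agent.H373R2.T7
open Pool.Agent.W93.LM (FC FC_pars)
open Pool.Agent.N699.RP

lemma arc_bound (F : ℕ → ℂ) (X M : ℕ) (M0 δ : ℝ) (hM0 : 0 ≤ M0) (hF : ∀ y : ℕ, y ≤ X → ‖∑ n ∈ Icc 1 y, F n‖ ≤ M0) (r : ℕ)
    (k : ℤ) (h : |(r : ℝ) / M - k| ≤ δ) : ‖FC F X M r‖ ≤ M0 * (1 + X * (2 * Real.pi * δ)) := by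
  obtain ⟨γ, hγ⟩ : ∃ γ : ℝ, γ = (r : ℝ) / M - k := ⟨_, rfl⟩
  rw [← hγ] at h
  have h1 := abel_ee F γ M0 X hF
  have h2 : FC F X M r = ∑ n ∈ Icc 1 X, F n * ee (n * γ) := by
    unfold FC
    apply sum_congr rfl
    intro n _
    congr 1
    have e1 : (n : ℝ) * ((r : ℝ) / M) = n * γ + (((n : ℤ) * k : ℤ) : ℝ) := by
      rw [hγ]
      push_cast
      ring
    rw [e1, ee_add_int]
  rw [h2]
  refine h1.trans ?_
  apply mul_le_mul_of_nonneg_left _ hM0
  have h3 : ‖ee γ - 1‖ ≤ 2 * Real.pi * δ := by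
    have h4 := dd_le γ
    unfold dd at h4
    rw [norm_sub_rev] at h4
    exact h4.trans (mul_le_mul_of_nonneg_left h (by positivity))
  have : (X : ℝ) * ‖ee γ - 1‖ ≤ X * (2 * Real.pi * δ) := mul_le_mul_of_nonneg_left h3 (Nat.cast_nonneg _)
  linarith

/-- functions with small sums on all the intervals `[1, y]` -/
theorem smooth_gen (B E U : ℕ) : ∃ N₀ : ℕ, ∀ N, N₀ ≤ N → ∀ (Ω : Finset ℕ) (p : ℕ → ℝ), Lz B E (U + 2) N Ω p →
    ∀ F : ℕ → ℂ, (∀ n ∈ Icc 1 ((B + 1) * N), ‖F n‖ ≤ Real.log (((B + 1) * N : ℕ) : ℝ)) →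
    (∀ y : ℕ, y ≤ (B + 1) * N → ‖∑ n ∈ Icc 1 y, F n‖ ≤ (((B + 1) * N : ℕ) : ℝ) / Real.log (((B + 1) * N : ℕ) : ℝ) ^ (3 * E + U + 1)) →
    ∑ x ∈ Icc 1 N, ‖∑ v ∈ Ω, ((p v : ℝ) : ℂ) * F (x + v)‖ ^ 2 ≤ N / Real.log N ^ U := by
  obtain ⟨n2, h2⟩ := ev_L' (Real.log (B + 1) + 4 * (B + 1) + 320 * ((B : ℝ) + 1) ^ 4 + 2)
  obtain ⟨n3, h3⟩ := log_small E 2
  refine ⟨n2 + n3 + 3, fun N hN Ω p hlaw F hF1 hF2 => ?_⟩
  obtain ⟨hp, hp1, hsize, hdec⟩ := hlaw
  have hN1 : 1 ≤ N := by omega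
  have hN0 : (0 : ℝ) < N := by exact_mod_cast hN1
  have a2 := h2 N (by omega)
  have a3 := h3 N (by omega)
  obtain ⟨L, hLd⟩ : ∃ L, L = Real.log (N : ℝ) := ⟨_, rfl⟩
  rw [← hLd] at a2 a3 hdec ⊢
  have hb0 : (0 : ℝ) ≤ B := Nat.cast_nonneg _
  have hlogB : 0 ≤ Real.log ((B : ℝ) + 1) := Real.log_nonneg (by linarith)
  have hb4 : (0 : ℝ) ≤ 320 * ((B : ℝ) + 1) ^ 4 := by positivity
  have hL1 : 1 ≤ L := by linarith
  have hL0 : 0 < L := by linarith
  obtain ⟨X, hX⟩ : ∃ X, X = (B + 1) * N := ⟨_, rfl⟩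
  obtain ⟨M, hM⟩ : ∃ M, M = 2 * X := ⟨_, rfl⟩
  rw [← hX] at hF1 hF2
  have hX1 : 1 ≤ X := by rw [hX]; exact Nat.mul_pos (by omega) hN1
  have hX0 : (0 : ℝ) < X := by exact_mod_cast hX1
  have hXr : (X : ℝ) = (B + 1) * N := by rw [hX]; push_cast; ring
  have hMr : (M : ℝ) = 2 * X := by rw [hM]; push_cast; ring
  have hNX : N ≤ X := by rw [hX]; exact Nat.le_mul_of_pos_left _ (by omega)
  have hlX1 : L ≤ Real.log X := by rw [hLd]; exact Real.log_le_log hN0 (by exact_mod_cast hNX)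
  have hlX2 : Real.log X ≤ 2 * L := by
    rw [hXr, Real.log_mul (by positivity) hN0.ne', ← hLd]
    linarith
  have hLE : 1 ≤ L ^ E := one_le_pow₀ hL1
  have hδ : 0 < L ^ E / N := by positivity
  have hδ1 : L ^ E / N < 1 := by
    rw [div_lt_one hN0]
    linarith
  obtain ⟨M0, hM0⟩ : ∃ M0, M0 = (X : ℝ) / Real.log X ^ (3 * E + U + 1) := ⟨_, rfl⟩
  rw [← hM0] at hF2
  have hM00 : 0 ≤ M0 := by rw [hM0]; exact div_nonneg hX0.le (pow_nonneg (by linarith) _)
  have hsm := smooth Ω p hp hp1 F X M N hX1 hM (fun v hv => by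
      have := hsize v hv
      rw [hX, add_mul, one_mul]
      omega) (L ^ E / N) (1 / L ^ (U + 2)) (M0 * (1 + X * (2 * Real.pi * (L ^ E / N)))) (Real.log X ^ 2 * X) hδ hδ1
    (by positivity) (mul_nonneg hM00 (by positivity)) hdec (fun r _ hr => by
      obtain ⟨k, hk⟩ := hr
      exact arc_bound F X M M0 (L ^ E / N) hM00 hF2 r k hk) (by
      rw [FC_pars _ X M (by omega) (by omega)]
      apply mul_le_mul_of_nonneg_left _ (by positivity)
      calc ∑ n ∈ Icc 1 X, ‖F n‖ ^ 2 ≤ ∑ _n ∈ Icc 1 X, Real.log X ^ 2 :=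
            sum_le_sum fun n hn => pow_le_pow_left₀ (norm_nonneg _) (hF1 n hn) 2
        _ = Real.log X ^ 2 * X := by rw [sum_const, nsmul_eq_mul, Nat.card_Icc, Nat.add_sub_cancel, mul_comm])
  refine hsm.trans ?_
  have e1 : (1 / L ^ (U + 2)) ^ 2 * (Real.log X ^ 2 * X) ≤ N / L ^ U * (4 * (B + 1) / L) := by
    calc (1 / L ^ (U + 2)) ^ 2 * (Real.log X ^ 2 * X) ≤ (1 / L ^ (U + 2)) ^ 2 * ((2 * L) ^ 2 * X) := by
          apply mul_le_mul_of_nonneg_left _ (by positivity)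
          apply mul_le_mul_of_nonneg_right _ hX0.le
          exact pow_le_pow_left₀ (by linarith) hlX2 2
      _ = N / L ^ U * (4 * (B + 1) / L ^ (U + 2)) := by
          rw [hXr, div_pow, one_pow, ← pow_mul, show (U + 2) * 2 = U + (U + 2) + 2 by ring, pow_add L (U + (U + 2)), pow_add L U (U + 2)]
          field_simp
          ring
      _ ≤ N / L ^ U * (4 * (B + 1) / L) := by
          apply mul_le_mul_of_nonneg_left _ (by positivity)
          apply div_le_div_of_nonneg_left (by positivity) hL0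
          calc L = L ^ 1 := (pow_one L).symm
            _ ≤ L ^ (U + 2) := pow_le_pow_right₀ hL1 (by omega)
  have e2 : M0 * (1 + X * (2 * Real.pi * (L ^ E / N))) ≤ 8 * (B + 1) * X / L ^ (2 * E + U + 1) := by
    have e3 : M0 ≤ X / L ^ (3 * E + U + 1) := by
      rw [hM0]
      exact div_le_div_of_nonneg_left hX0.le (by positivity) (pow_le_pow_left₀ hL0.le hlX1 _)
    have e4 : 1 + X * (2 * Real.pi * (L ^ E / N)) ≤ 8 * (B + 1) * L ^ E := by
      have e5 : X * (2 * Real.pi * (L ^ E / N)) = 2 * Real.pi * (B + 1) * L ^ E := by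
        rw [hXr]
        field_simp
      rw [e5]
      have e6 := Real.pi_lt_d2
      have e7 : 1 ≤ ((B : ℝ) + 1) * L ^ E := one_le_mul_of_one_le_of_one_le (by linarith) hLE
      nlinarith
    calc M0 * (1 + X * (2 * Real.pi * (L ^ E / N))) ≤ (X / L ^ (3 * E + U + 1)) * (8 * (B + 1) * L ^ E) :=
          mul_le_mul e3 e4 (by positivity) (by positivity)
      _ = _ := by
          rw [show 3 * E + U + 1 = 2 * E + U + 1 + E by ring, pow_add L (2 * E + U + 1)]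
          field_simp
  have e3 : (4 * (L ^ E / N) * M + 2) * (M0 * (1 + X * (2 * Real.pi * (L ^ E / N)))) ^ 2 / M ≤
      N / L ^ U * (320 * (B + 1) ^ 4 / L) := by
    have e4 : 4 * (L ^ E / N) * M + 2 ≤ 10 * (B + 1) * L ^ E := by
      have e5 : 4 * (L ^ E / N) * M = 8 * (B + 1) * L ^ E := by
        rw [hMr, hXr]
        field_simp
        norm_num
      rw [e5]
      have e7 : 1 ≤ ((B : ℝ) + 1) * L ^ E := one_le_mul_of_one_le_of_one_le (by linarith) hLE
      linarith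
    have e5 : (M0 * (1 + X * (2 * Real.pi * (L ^ E / N)))) ^ 2 / M ≤ (8 * (B + 1) * X / L ^ (2 * E + U + 1)) ^ 2 / M := by
      apply div_le_div_of_nonneg_right _ (by positivity)
      exact pow_le_pow_left₀ (mul_nonneg hM00 (by positivity)) e2 2
    rw [mul_div_assoc]
    calc (4 * (L ^ E / N) * M + 2) * ((M0 * (1 + X * (2 * Real.pi * (L ^ E / N)))) ^ 2 / M) ≤
          (10 * (B + 1) * L ^ E) * ((8 * (B + 1) * X / L ^ (2 * E + U + 1)) ^ 2 / M) := by
          apply mul_le_mul e4 e5 _ (by positivity)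
          exact div_nonneg (sq_nonneg _) (by positivity)
      _ = N / L ^ U * (320 * (B + 1) ^ 4 / L ^ (3 * E + U + 2)) := by
          rw [hMr, hXr, div_pow, ← pow_mul, show (2 * E + U + 1) * 2 = E + U + (3 * E + U + 2) by ring, pow_add L (E + U), pow_add L E U]
          field_simp
          norm_num
      _ ≤ N / L ^ U * (320 * (B + 1) ^ 4 / L) := by
          apply mul_le_mul_of_nonneg_left _ (by positivity)
          apply div_le_div_of_nonneg_left (by positivity) hL0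
          calc L = L ^ 1 := (pow_one L).symm
            _ ≤ L ^ (3 * E + U + 2) := pow_le_pow_right₀ hL1 (by omega)
  calc _ ≤ N / L ^ U * (4 * (B + 1) / L) + N / L ^ U * (320 * (B + 1) ^ 4 / L) := add_le_add e1 e3
    _ = N / L ^ U * ((4 * (B + 1) + 320 * (B + 1) ^ 4) / L) := by ring
    _ ≤ N / L ^ U * 1 := by
        apply mul_le_mul_of_nonneg_left _ (by positivity)
        rw [div_le_one hL0]
        linarith
    _ = _ := mul_one _

end Pool.Agent.N699.GC
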