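import Pool.Agent.N699.RP.One

set_option autoImplicit false

/-! The mean square of the average of a function over a random shift. -/

namespace Pool.Agent.N699.GC
open Finset
open Pool.Agent.H807R2.Dav
open Pool.Agent.H373R2.T7
open Pool.Agent.W93.DG
open Pool.Agent.W93.RD
open Pool.Agent.W93.LM (FC FC_pars)
open Pool.Agent.N699.RP (card_near)

/-- the identity of Parseval -/
lemma EE_pars (A : ℕ → ℂ) (M : ℕ) (hM : 1 ≤ M) :
    ∑ x ∈ range M, ‖EE A M (x : ℤ)‖ ^ 2 = M * ∑ r ∈ range M, ‖A r‖ ^ 2 := by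
  have h1 := sq_expand (range M) A (fun r => -(r : ℤ)) M hM
  have h2 : ∀ x : ℕ, EE A M (x : ℤ) = ∑ r ∈ range M, A r * ee ((x : ℝ) * (((-(r : ℤ) : ℤ) : ℝ) / M)) := by
    intro x
    unfold EE
    apply sum_congr rfl
    intro r _
    congr 2
    push_cast
    ring
  have h3 : ∀ i ∈ range M, ∑ j ∈ range M, A i * (starRingEnd ℂ) (A j) * (if (M : ℤ) ∣ -(i : ℤ) - -(j : ℤ) then (M : ℂ) else 0) =
      (((M : ℝ) * ‖A i‖ ^ 2 : ℝ) : ℂ) := by
    intro i hi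
    rw [mem_range] at hi
    rw [sum_eq_single i]
    · rw [sub_self, if_pos (dvd_zero _), Complex.mul_conj']
      push_cast
      ring
    · intro j hj hne
      rw [mem_range] at hj
      rw [if_neg, mul_zero]
      intro hd
      have := Int.eq_zero_of_abs_lt_dvd hd (by rw [abs_lt]; constructor <;> omega)
      omega
    · intro h; exact absurd (mem_range.2 hi) h
  rw [sum_congr rfl h3, ← Complex.ofReal_sum] at h1
  have h4 : ∑ x ∈ range M, ‖EE A M (x : ℤ)‖ ^ 2 = ∑ i ∈ range M, (M : ℝ) * ‖A i‖ ^ 2 := by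
    simp only [h2]
    exact_mod_cast h1
  rw [h4, mul_sum]

/-- the average of a function over a random shift, in the mean square -/
theorem smooth (Ω : Finset ℕ) (p : ℕ → ℝ) (hp : ∀ v ∈ Ω, 0 ≤ p v) (hp1 : ∑ v ∈ Ω, p v = 1) (F : ℕ → ℂ) (X M N : ℕ)
    (hX : 1 ≤ X) (hM : M = 2 * X) (hsize : ∀ v ∈ Ω, N + v ≤ X) (δ τ σ Φ : ℝ) (hδ : 0 < δ) (hδ1 : δ < 1) (hτ : 0 ≤ τ) (hσ : 0 ≤ σ)
    (hdec : ∀ α : ℝ, (∀ k : ℤ, δ < |α - k|) → ‖∑ v ∈ Ω, ((p v : ℝ) : ℂ) * ee ((v : ℝ) * α)‖ ≤ τ)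
    (harc : ∀ r ∈ range M, (∃ k : ℤ, |(r : ℝ) / M - k| ≤ δ) → ‖FC F X M r‖ ≤ σ)
    (hl2 : ∑ r ∈ range M, ‖FC F X M r‖ ^ 2 ≤ M * Φ) :
    ∑ x ∈ Icc 1 N, ‖∑ v ∈ Ω, ((p v : ℝ) : ℂ) * F (x + v)‖ ^ 2 ≤ τ ^ 2 * Φ + (4 * δ * M + 2) * σ ^ 2 / M := by
  classical
  have hM1 : 1 ≤ M := by omega
  have hM0 : (0 : ℝ) < M := by exact_mod_cast hM1
  obtain ⟨P, hP⟩ : ∃ P : ℕ → ℂ, P = fun r : ℕ => ∑ v ∈ Ω, ((p v : ℝ) : ℂ) * ee ((v : ℝ) * ((r : ℝ) / M)) := ⟨_, rfl⟩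
  obtain ⟨A, hA⟩ : ∃ A : ℕ → ℂ, A = fun r => FC F X M r * (starRingEnd ℂ) (P r) := ⟨_, rfl⟩
  have hPn : ∀ r, ‖P r‖ ≤ 1 := by
    intro r
    rw [hP]
    simp only
    refine (norm_sum_le _ _).trans ?_
    rw [← hp1]
    apply sum_le_sum
    intro v hv
    rw [norm_mul, norm_ee, mul_one, Complex.norm_real, Real.norm_of_nonneg (hp v hv)]
  have h1 : ∀ x ∈ Icc 1 N, EE A M (x : ℤ) = (M : ℂ) * ∑ v ∈ Ω, ((p v : ℝ) : ℂ) * F (x + v) := by
    intro x hx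
    rw [mem_Icc] at hx
    unfold EE
    have e1 : ∀ r ∈ range M, A r * ee (-(((x : ℤ) : ℝ) * ((r : ℝ) / (M : ℝ)))) =
        ∑ v ∈ Ω, ∑ n ∈ Icc 1 X, (((p v : ℝ) : ℂ) * F n) * ee ((r : ℝ) * ((((n : ℤ) - v - x : ℤ) : ℝ) / M)) := by
      intro r _
      rw [hA, hP]
      simp only
      unfold FC
      rw [map_sum, mul_comm (∑ n ∈ Icc 1 X, F n * ee ((n : ℝ) * ((r : ℝ) / (M : ℝ)))), sum_mul_sum, sum_mul]
      apply sum_congr rfl
      intro v _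
      rw [sum_mul]
      apply sum_congr rfl
      intro n _
      have e2 : ee ((r : ℝ) * ((((n : ℤ) - v - x : ℤ) : ℝ) / M)) = ee ((n : ℝ) * ((r : ℝ) / M)) * ee (-((v : ℝ) * ((r : ℝ) / M))) *
          ee (-(((x : ℤ) : ℝ) * ((r : ℝ) / (M : ℝ)))) := by
        rw [← ee_add, ← ee_add]
        congr 1
        push_cast
        ring
      rw [e2, map_mul, conj_ee, Complex.conj_ofReal]
      ring
    rw [sum_congr rfl e1, sum_comm, mul_sum]
    apply sum_congr rfl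
    intro v hv
    rw [sum_comm]
    have hvX := hsize v hv
    have e3 : ∀ n ∈ Icc 1 X, ∑ r ∈ range M, (((p v : ℝ) : ℂ) * F n) * ee ((r : ℝ) * ((((n : ℤ) - v - x : ℤ) : ℝ) / M)) =
        (((p v : ℝ) : ℂ) * F n) * (if (M : ℤ) ∣ (n : ℤ) - v - x then (M : ℂ) else 0) := by
      intro n _
      rw [← mul_sum, orth M (by omega)]
    rw [sum_congr rfl e3, sum_eq_single (x + v)]
    · rw [if_pos (by push_cast; simp)]
      ring
    · intro n hn hne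
      rw [mem_Icc] at hn
      rw [if_neg, mul_zero]
      intro hd
      have := Int.eq_zero_of_abs_lt_dvd hd (by rw [abs_lt]; constructor <;> omega)
      omega
    · intro h
      exfalso
      apply h
      rw [mem_Icc]
      omega
  have h2 : (M : ℝ) ^ 2 * ∑ x ∈ Icc 1 N, ‖∑ v ∈ Ω, ((p v : ℝ) : ℂ) * F (x + v)‖ ^ 2 ≤ M * ∑ r ∈ range M, ‖A r‖ ^ 2 := by
    rw [← EE_pars A M hM1, mul_sum]
    have e1 : ∀ x ∈ Icc 1 N, (M : ℝ) ^ 2 * ‖∑ v ∈ Ω, ((p v : ℝ) : ℂ) * F (x + v)‖ ^ 2 = ‖EE A M (x : ℤ)‖ ^ 2 := by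
      intro x hx
      rw [h1 x hx, norm_mul, Complex.norm_natCast, mul_pow]
    rw [sum_congr rfl e1]
    rcases Ω.eq_empty_or_nonempty with h0 | ⟨v0, hv0⟩
    · rw [h0, sum_empty] at hp1
      exact absurd hp1 zero_ne_one
    · apply sum_le_sum_of_subset_of_nonneg
      · intro x hx
        rw [mem_Icc] at hx
        rw [mem_range]
        have := hsize v0 hv0
        omega
      · intro _ _ _
        positivity
  obtain ⟨S, hS⟩ : ∃ S : ℕ → Prop, S = fun r : ℕ => ∃ k : ℤ, |(r : ℝ) / M - k| ≤ δ := ⟨_, rfl⟩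
  have h3 : ∀ r ∈ range M, ‖A r‖ ^ 2 ≤ τ ^ 2 * ‖FC F X M r‖ ^ 2 + (if S r then σ ^ 2 else 0) := by
    intro r hr
    have e1 : ‖A r‖ = ‖FC F X M r‖ * ‖P r‖ := by
      rw [hA]
      simp only
      rw [norm_mul, RCLike.norm_conj]
    rw [e1, mul_pow]
    split_ifs with h
    · rw [hS] at h
      have e2 := harc r hr h
      have e3 : ‖FC F X M r‖ ^ 2 ≤ σ ^ 2 := pow_le_pow_left₀ (norm_nonneg _) e2 2
      have e4 : ‖P r‖ ^ 2 ≤ 1 := pow_le_one₀ (norm_nonneg _) (hPn r)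
      have e5 : ‖FC F X M r‖ ^ 2 * ‖P r‖ ^ 2 ≤ σ ^ 2 * 1 := mul_le_mul e3 e4 (by positivity) (by positivity)
      have e6 : 0 ≤ τ ^ 2 * ‖FC F X M r‖ ^ 2 := by positivity
      linarith
    · rw [hS] at h
      push Not at h
      have e2 : ‖P r‖ ≤ τ := by
        rw [hP]
        exact hdec _ h
      have e3 : ‖P r‖ ^ 2 ≤ τ ^ 2 := pow_le_pow_left₀ (norm_nonneg _) e2 2
      rw [add_zero, mul_comm]
      exact mul_le_mul_of_nonneg_right e3 (by positivity)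
  have h4 : (((range M).filter S).card : ℝ) ≤ 4 * δ * M + 2 := by
    obtain ⟨W, hW⟩ : ∃ W : ℤ → Finset ℕ, W = fun k : ℤ => (range M).filter fun r : ℕ => |(r : ℝ) / M - k| ≤ δ := ⟨_, rfl⟩
    have e1 : (range M).filter S ⊆ W 0 ∪ W 1 := by
      intro r hr
      rw [mem_filter, hS] at hr
      obtain ⟨hr1, k, hk⟩ := hr
      rw [hW, mem_union, mem_filter, mem_filter]
      have hr0 : (0 : ℝ) ≤ (r : ℝ) / M := by positivity
      have hr2 : (r : ℝ) / M < 1 := by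
        rw [div_lt_one hM0]
        exact_mod_cast mem_range.1 hr1
      obtain ⟨k1, k2⟩ := abs_le.1 hk
      have k3 : (-1 : ℝ) < k := by linarith
      have k4 : (k : ℝ) < 2 := by linarith
      have k5 : -1 < k := by exact_mod_cast k3
      have k6 : k < 2 := by exact_mod_cast k4
      have k7 : k = 0 ∨ k = 1 := by omega
      rcases k7 with rfl | rfl
      · exact Or.inl ⟨hr1, hk⟩
      · exact Or.inr ⟨hr1, hk⟩
    have e2 : ∀ k, ((W k).card : ℝ) ≤ 2 * δ * M + 1 := by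
      intro k
      apply card_near _ _ (by positivity)
      intro t ht t' ht'
      rw [hW] at ht ht'
      simp only at ht ht'
      rw [mem_filter] at ht ht'
      obtain ⟨a1, a2⟩ := abs_le.1 ht.2
      obtain ⟨b1, b2⟩ := abs_le.1 ht'.2
      have e3 : ((t : ℝ) - t') / M ≤ 2 * δ := by rw [sub_div]; linarith
      rw [div_le_iff₀ hM0] at e3
      exact e3
    have e3 : (((range M).filter S).card : ℝ) ≤ (W 0).card + (W 1).card := by
      exact_mod_cast (card_le_card e1).trans (card_union_le _ _)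
    have := e2 0
    have := e2 1
    linarith
  have h5 : ∑ r ∈ range M, ‖A r‖ ^ 2 ≤ τ ^ 2 * (M * Φ) + (4 * δ * M + 2) * σ ^ 2 := by
    refine (sum_le_sum h3).trans ?_
    rw [sum_add_distrib, ← mul_sum, ← sum_filter, sum_const, nsmul_eq_mul]
    exact add_le_add (mul_le_mul_of_nonneg_left hl2 (by positivity)) (mul_le_mul_of_nonneg_right h4 (by positivity))
  have h6 : (M : ℝ) ^ 2 * ∑ x ∈ Icc 1 N, ‖∑ v ∈ Ω, ((p v : ℝ) : ℂ) * F (x + v)‖ ^ 2 ≤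
      (M : ℝ) ^ 2 * (τ ^ 2 * Φ + (4 * δ * M + 2) * σ ^ 2 / M) := by
    refine (h2.trans (mul_le_mul_of_nonneg_left h5 hM0.le)).trans (le_of_eq ?_)
    field_simp
  exact le_of_mul_le_mul_left h6 (by positivity)

end Pool.Agent.N699.GC
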