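import Pool.Agent.N916.ND.Sqf
import Pool.Agent.N699.GC.Good

set_option autoImplicit false

/-! The number of the squarefree integers in an interval. -/

namespace Pool.Agent.N699.GC
open Finset
open Pool.Agent.H373R2.T7
open scoped ArithmeticFunction.Moebius

lemma muC_sq (n : ℕ) : ‖muC n‖ ^ 2 = if Squarefree n then 1 else 0 := by
  unfold muC
  split_ifs with h
  · rw [ArithmeticFunction.moebius_apply_of_squarefree h]
    push_cast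
    rw [norm_pow, norm_neg, norm_one, one_pow, one_pow]
  · rw [ArithmeticFunction.moebius_eq_zero_of_not_squarefree h]
    simp

/-- the Moebius function, real valued -/
noncomputable def mu (k : ℕ) : ℝ := ((ArithmeticFunction.moebius k : ℤ) : ℝ)

/-- `∑ μ(d)/d² = 6/π²` -/
lemma moebius_hasSum : HasSum (fun d : ℕ => mu d * (1 / (d : ℝ) ^ 2)) (6 / Real.pi ^ 2) := by
  have h2 : (1 : ℝ) < (2 : ℂ).re := by norm_num
  have hs : LSeriesSummable (fun n => ((ArithmeticFunction.moebius n : ℤ) : ℂ)) 2 :=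
    ArithmeticFunction.LSeriesSummable_moebius_iff.mpr h2
  have hL := ArithmeticFunction.LSeries_zeta_mul_Lseries_moebius h2
  rw [ArithmeticFunction.LSeries_zeta_eq_riemannZeta h2, riemannZeta_two] at hL
  have hpi : (Real.pi : ℂ) ≠ 0 := by exact_mod_cast Real.pi_ne_zero
  have hval : LSeries (fun n => ((ArithmeticFunction.moebius n : ℤ) : ℂ)) 2 = 6 / (Real.pi : ℂ) ^ 2 := by
    field_simp
    field_simp at hL
    linear_combination hL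
  have hsum := hs.LSeriesHasSum
  rw [hval] at hsum
  have h3 : HasSum (fun d : ℕ => ((mu d * (1 / (d : ℝ) ^ 2) : ℝ) : ℂ)) (((6 / Real.pi ^ 2 : ℝ)) : ℂ) := by
    have e : (((6 / Real.pi ^ 2 : ℝ)) : ℂ) = 6 / (Real.pi : ℂ) ^ 2 := by push_cast; ring
    rw [e]
    unfold LSeriesHasSum at hsum
    refine hsum.congr_fun ?_
    intro d
    rcases eq_or_ne d 0 with rfl | hd
    · simp [mu]
    · rw [LSeries.term_of_ne_zero hd]
      unfold mu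
      push_cast
      rw [show ((d : ℂ) ^ (2 : ℂ)) = (d : ℂ) ^ (2 : ℕ) by norm_cast]
      ring
  exact Complex.hasSum_ofReal.mp h3

lemma tail (r : ℕ) (hr : 1 ≤ r) : |(∑ s ∈ Icc 1 r, ((μ s : ℤ) : ℝ) / (s : ℝ) ^ 2) - 6 / Real.pi ^ 2| ≤ 1 / (r : ℝ) := by
  have h1 := moebius_hasSum
  have h2 := h1.tendsto_sum_nat
  have hr0 : (0 : ℝ) < r := by exact_mod_cast hr
  have h3 : ∀ n, r + 1 ≤ n → |∑ s ∈ Icc 1 r, ((μ s : ℤ) : ℝ) / (s : ℝ) ^ 2 - ∑ i ∈ range n, mu i * (1 / (i : ℝ) ^ 2)| ≤ 1 / (r : ℝ) := by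
    intro n hn
    obtain ⟨m, rfl⟩ : ∃ m, n = m + 1 := ⟨n - 1, by omega⟩
    have e1 : ∑ i ∈ range (m + 1), mu i * (1 / (i : ℝ) ^ 2) =
        ∑ s ∈ Icc 1 m, ((μ s : ℤ) : ℝ) / (s : ℝ) ^ 2 := by
      rw [range_eq_Ico, sum_eq_sum_Ico_succ_bot (by omega)]
      have : mu 0 * (1 / ((0 : ℕ) : ℝ) ^ 2) = 0 := by simp
      rw [this, zero_add]
      apply sum_congr
      · ext x; simp only [mem_Ico, mem_Icc]; omega
      · intro x _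
        unfold mu
        ring
    have e2 : Icc 1 m = Icc 1 r ∪ Ioc r m := by
      ext x; simp only [mem_Icc, mem_union, mem_Ioc]; omega
    have e3 : Disjoint (Icc 1 r) (Ioc r m) := by
      rw [disjoint_left]
      intro x hx hx'
      rw [mem_Icc] at hx
      rw [mem_Ioc] at hx'
      omega
    rw [e1, e2, sum_union e3]
    have e4 : ∑ s ∈ Icc 1 r, ((μ s : ℤ) : ℝ) / (s : ℝ) ^ 2 - (∑ s ∈ Icc 1 r, ((μ s : ℤ) : ℝ) / (s : ℝ) ^ 2 +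
        ∑ s ∈ Ioc r m, ((μ s : ℤ) : ℝ) / (s : ℝ) ^ 2) = -∑ s ∈ Ioc r m, ((μ s : ℤ) : ℝ) / (s : ℝ) ^ 2 := by ring
    rw [e4, abs_neg]
    refine (abs_sum_le_sum_abs _ _).trans ?_
    have e5 : ∀ s ∈ Ioc r m, |((μ s : ℤ) : ℝ) / (s : ℝ) ^ 2| ≤ ((s : ℝ) ^ 2)⁻¹ := by
      intro s _
      rw [abs_div, abs_of_nonneg (by positivity : (0 : ℝ) ≤ (s : ℝ) ^ 2), div_eq_mul_inv]
      have : |((μ s : ℤ) : ℝ)| ≤ 1 := by exact_mod_cast ArithmeticFunction.abs_moebius_le_one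
      calc |((μ s : ℤ) : ℝ)| * ((s : ℝ) ^ 2)⁻¹ ≤ 1 * ((s : ℝ) ^ 2)⁻¹ := mul_le_mul_of_nonneg_right this (by positivity)
        _ = _ := one_mul _
    refine (sum_le_sum e5).trans ?_
    have e6 := sum_Ioc_inv_sq_le_sub (α := ℝ) (k := r) (n := m) (by omega) (by omega)
    have e7 : (0 : ℝ) ≤ ((m : ℝ))⁻¹ := by positivity
    rw [one_div]
    linarith
  have h4 : Filter.Tendsto (fun n : ℕ => |∑ s ∈ Icc 1 r, ((μ s : ℤ) : ℝ) / (s : ℝ) ^ 2 -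
      ∑ i ∈ range n, mu i * (1 / (i : ℝ) ^ 2)|) Filter.atTop
      (nhds |∑ s ∈ Icc 1 r, ((μ s : ℤ) : ℝ) / (s : ℝ) ^ 2 - 6 / Real.pi ^ 2|) := (tendsto_const_nhds.sub h2).abs
  exact le_of_tendsto h4 (Filter.eventually_atTop.2 ⟨r + 1, fun n hn => h3 n hn⟩)

lemma sq_count (y : ℕ) : |∑ n ∈ Icc 1 y, ‖muC n‖ ^ 2 - 6 / Real.pi ^ 2 * y| ≤ 5 * Real.sqrt y := by
  rcases Nat.eq_zero_or_pos y with h0 | h0
  · rw [h0]; simp
  obtain ⟨r, hr⟩ : ∃ r, r = Nat.sqrt y := ⟨_, rfl⟩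
  have hr1 : 1 ≤ r := by rw [hr]; exact Nat.sqrt_pos.2 h0
  have hr0 : (0 : ℝ) < r := by exact_mod_cast hr1
  have hyr : y < (r + 1) ^ 2 := by rw [hr]; exact Nat.lt_succ_sqrt' y
  have hrr : (r : ℝ) ≤ Real.sqrt y := by
    rw [hr]
    exact Real.nat_sqrt_le_real_sqrt
  have h1 : ∑ n ∈ Icc 1 y, ‖muC n‖ ^ 2 = ∑ s ∈ Icc 1 r, ((μ s : ℤ) : ℝ) * ((y / s ^ 2 : ℕ) : ℝ) := by
    have e1 : ∀ n ∈ Icc 1 y, ‖muC n‖ ^ 2 = ∑ s ∈ Icc 1 r, (if s ^ 2 ∣ n then ((μ s : ℤ) : ℝ) else 0) := by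
      intro n hn
      rw [mem_Icc] at hn
      have e2 := Pool.Agent.N916.ND.ind_sqf (m := n) (r := r) (by omega) (by omega)
      rw [muC_sq, ← sum_filter]
      have e3 : ((∑ s ∈ (Icc 1 r).filter (fun s => s ^ 2 ∣ n), μ s : ℤ) : ℝ) = ((if Squarefree n then 1 else 0 : ℤ) : ℝ) := by
        rw [e2]
      push_cast at e3
      exact e3.symm
    rw [sum_congr rfl e1, sum_comm]
    apply sum_congr rfl
    intro s hs
    rw [mem_Icc] at hs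
    rw [← sum_filter, sum_const, nsmul_eq_mul, mul_comm]
    congr 2
    have e2 : (Icc 1 y).filter (fun n => s ^ 2 ∣ n) = (Ioc 0 y).filter (fun n => s ^ 2 ∣ n) := by
      ext x; simp only [mem_filter, mem_Icc, mem_Ioc]; constructor <;> (rintro ⟨h, h'⟩; exact ⟨by omega, h'⟩)
    rw [e2, Nat.Ioc_filter_dvd_card_eq_div]
  have h2 : |∑ s ∈ Icc 1 r, ((μ s : ℤ) : ℝ) * ((y / s ^ 2 : ℕ) : ℝ) - y * ∑ s ∈ Icc 1 r, ((μ s : ℤ) : ℝ) / (s : ℝ) ^ 2| ≤ r := by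
    rw [mul_sum, ← sum_sub_distrib]
    refine (abs_sum_le_sum_abs _ _).trans ?_
    have e1 : ∀ s ∈ Icc 1 r, |((μ s : ℤ) : ℝ) * ((y / s ^ 2 : ℕ) : ℝ) - y * (((μ s : ℤ) : ℝ) / (s : ℝ) ^ 2)| ≤ 1 := by
      intro s hs
      rw [mem_Icc] at hs
      have e2 : ((μ s : ℤ) : ℝ) * ((y / s ^ 2 : ℕ) : ℝ) - y * (((μ s : ℤ) : ℝ) / (s : ℝ) ^ 2) =
          ((μ s : ℤ) : ℝ) * (((y / s ^ 2 : ℕ) : ℝ) - y / (s : ℝ) ^ 2) := by ring
      rw [e2, abs_mul]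
      have e3 : |((μ s : ℤ) : ℝ)| ≤ 1 := by exact_mod_cast ArithmeticFunction.abs_moebius_le_one
      have e4 : |((y / s ^ 2 : ℕ) : ℝ) - y / (s : ℝ) ^ 2| ≤ 1 := by
        have e5 : ((y / s ^ 2 : ℕ) : ℝ) ≤ (y : ℝ) / ((s ^ 2 : ℕ) : ℝ) := Nat.cast_div_le
        have e6 : (y : ℝ) / ((s ^ 2 : ℕ) : ℝ) ≤ ((y / s ^ 2 : ℕ) : ℝ) + 1 := by
          have hs2 : (0 : ℝ) < ((s ^ 2 : ℕ) : ℝ) := by exact_mod_cast pow_pos (by omega : 0 < s) 2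
          rw [div_le_iff₀ hs2]
          have e7 : y < (y / s ^ 2 + 1) * s ^ 2 := by
            have := Nat.div_add_mod y (s ^ 2)
            have := Nat.mod_lt y (show s ^ 2 > 0 from pow_pos (by omega) 2)
            nlinarith
          exact_mod_cast e7.le
        push_cast at e5 e6
        rw [abs_le]
        constructor <;> linarith
      calc |((μ s : ℤ) : ℝ)| * |((y / s ^ 2 : ℕ) : ℝ) - y / (s : ℝ) ^ 2| ≤ 1 * 1 := mul_le_mul e3 e4 (abs_nonneg _) zero_le_one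
        _ = 1 := one_mul 1
    refine (sum_le_sum e1).trans ?_
    rw [sum_const, nsmul_eq_mul, mul_one, Nat.card_Icc, Nat.add_sub_cancel]
  have h3 := tail r hr1
  have hy4 : (y : ℝ) ≤ 4 * r * r := by
    have : y ≤ 4 * r * r := by nlinarith
    exact_mod_cast this
  rw [h1]
  have h4 : |(y : ℝ) * (∑ s ∈ Icc 1 r, ((μ s : ℤ) : ℝ) / (s : ℝ) ^ 2 - 6 / Real.pi ^ 2)| ≤ 4 * (r : ℝ) := by
    rw [abs_mul, Nat.abs_cast]
    calc (y : ℝ) * |∑ s ∈ Icc 1 r, ((μ s : ℤ) : ℝ) / (s : ℝ) ^ 2 - 6 / Real.pi ^ 2| ≤ (4 * r * r) * (1 / r) :=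
          mul_le_mul hy4 h3 (abs_nonneg _) (by positivity)
      _ = 4 * r := by field_simp
  have h5 : ∑ s ∈ Icc 1 r, ((μ s : ℤ) : ℝ) * ((y / s ^ 2 : ℕ) : ℝ) - 6 / Real.pi ^ 2 * y =
      (∑ s ∈ Icc 1 r, ((μ s : ℤ) : ℝ) * ((y / s ^ 2 : ℕ) : ℝ) - y * ∑ s ∈ Icc 1 r, ((μ s : ℤ) : ℝ) / (s : ℝ) ^ 2) +
      (y : ℝ) * (∑ s ∈ Icc 1 r, ((μ s : ℤ) : ℝ) / (s : ℝ) ^ 2 - 6 / Real.pi ^ 2) := by ring
  rw [h5]
  refine (abs_add_le _ _).trans ?_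
  linarith

lemma sq_int (a b : ℕ) (hab : a ≤ b) : |∑ n ∈ Ioc a b, ‖muC n‖ ^ 2 - 6 / Real.pi ^ 2 * ((b : ℝ) - a)| ≤ 10 * Real.sqrt b := by
  have h1 := sq_count a
  have h2 := sq_count b
  have h3 := sum_Ioc_consecutive (fun n => ‖muC n‖ ^ 2) (Nat.zero_le a) hab
  have e : ∀ c : ℕ, Icc 1 c = Ioc 0 c := by intro c; ext x; simp only [mem_Icc, mem_Ioc]; omega
  rw [e] at h1 h2
  have h4 : Real.sqrt a ≤ Real.sqrt b := Real.sqrt_le_sqrt (by exact_mod_cast hab)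
  have h5 : ∑ n ∈ Ioc a b, ‖muC n‖ ^ 2 - 6 / Real.pi ^ 2 * ((b : ℝ) - a) =
      (∑ n ∈ Ioc 0 b, ‖muC n‖ ^ 2 - 6 / Real.pi ^ 2 * b) - (∑ n ∈ Ioc 0 a, ‖muC n‖ ^ 2 - 6 / Real.pi ^ 2 * a) := by
    rw [← h3]; ring
  rw [h5]
  refine (abs_sub _ _).trans ?_
  linarith

end Pool.Agent.N699.GC
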