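import Pool.Agent.N699.GC.Fin
import Pool.Agent.N699.RP.Prim

set_option autoImplicit false

/-! Translates of the laws, and the transfer to the points. -/

namespace Pool.Agent.N699.GC
open Finset
open Pool.Agent.H807R2.Dav
open Pool.Agent.H373R2.T7
open Pool.Agent.N699.RP

lemma lw_trans {τ : Type} (B B' E W N : ℕ) (T : Finset τ) (ω : τ → ℝ) (hω : ∀ t ∈ T, 0 ≤ ω t) (val : τ → ℕ) (c : ℕ)
    (hc : c ≤ B' * N) (h : Lw B E W N (T.image val) (push T ω val)) :
    Lw (B + B') E W N (T.image fun t => c + val t) (push T ω fun t => c + val t) := by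
  obtain ⟨h1, h2, h3, h4⟩ := h
  refine ⟨fun v _ => sum_nonneg fun t ht => hω t (mem_filter.1 ht).1, ?_, ?_, ?_⟩
  · rw [push_sum1] at h2 ⊢
    exact h2
  · intro v hv
    rw [mem_image] at hv
    obtain ⟨t, ht, rfl⟩ := hv
    have := h3 (val t) (mem_image_of_mem _ ht)
    rw [add_mul]
    omega
  · intro α hα
    have h5 := h4 α hα
    rw [push_sum T ω val (fun v => ee ((v : ℝ) * α))] at h5
    rw [push_sum T ω (fun t => c + val t) (fun v => ee ((v : ℝ) * α))]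
    have e1 : ∑ t ∈ T, ((ω t : ℝ) : ℂ) * ee (((c + val t : ℕ) : ℝ) * α) = ee ((c : ℝ) * α) * ∑ t ∈ T, ((ω t : ℝ) : ℂ) * ee ((val t : ℝ) * α) := by
      rw [mul_sum]
      apply sum_congr rfl
      intro t _
      push_cast
      rw [add_mul, ee_add]
      ring
    rw [e1, norm_mul, norm_ee, one_mul]
    exact h5

open Classical in
lemma push_bad {τ : Type} (T : Finset τ) (ω : τ → ℝ) (val : τ → ℕ) (P : ℕ → Prop) :
    ∑ v ∈ T.image val, (if P v then 0 else push T ω val v) = ∑ t ∈ T, (if P (val t) then 0 else ω t) := by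
  rw [← sum_fiberwise_of_maps_to (s := T) (t := T.image val) (g := val) (fun t ht => mem_image_of_mem _ ht)]
  apply sum_congr rfl
  intro v _
  unfold push
  split_ifs with h
  · symm
    apply sum_eq_zero
    intro t ht
    rw [(mem_filter.1 ht).2, if_pos h]
  · apply sum_congr rfl
    intro t ht
    rw [(mem_filter.1 ht).2, if_neg h]

/-- the variance formula and the absence of correlations, for the difference `v` -/
def Fm (A B U N v : ℕ) : Prop := ∀ H h x₀ x₁ : ℕ, (H : ℝ) ≤ Real.log N ^ A → (h : ℝ) ≤ Real.log N ^ A → x₀ ≤ x₁ → x₁ ≤ B * N →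
  (∀ a : ℕ → ℂ, (∀ j, ‖a j‖ ≤ 1) → |∑ x ∈ Ioc x₀ x₁, ‖∑ j ∈ Icc 1 H, a j * muC (x + j * v)‖ ^ 2 -
      6 / Real.pi ^ 2 * ((x₁ : ℝ) - x₀) * ∑ j ∈ Icc 1 H, ‖a j‖ ^ 2| ≤ N / Real.log N ^ U) ∧
  (∀ a : ℕ → ℕ → ℂ, (∀ j m, ‖a j m‖ ≤ 1) →
    |∑ x ∈ Ioc x₀ x₁, ‖∑ j ∈ Icc 1 H, ∑ m ∈ range h, a j m * muC (x + j * v + m)‖ ^ 2 -
      ∑ j ∈ Icc 1 H, ∑ x ∈ Ioc x₀ x₁, ‖∑ m ∈ range h, a j m * muC (x + j * v + m)‖ ^ 2| ≤ N / Real.log N ^ U)

lemma fm_of_gd (A B B0 U : ℕ) : ∃ N₀ : ℕ, ∀ N, N₀ ≤ N → ∀ v, v ≤ B0 * N →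
    Gd (4 * A + U + 1) N ⌊Real.log N ^ A⌋₊ ((B + B0) * ⌊Real.log N ^ A⌋₊ * N) v → Fm A B U N v := by
  obtain ⟨n1, h1⟩ := ev_L' 2
  obtain ⟨n2, h2⟩ := log_small (3 * A + 2 * U) (400 * (B + B0))
  refine ⟨n1 + n2 + 3, fun N hN v hv hg => ?_⟩
  have hN1 : 1 ≤ N := by omega
  have hN0 : (0 : ℝ) < N := by exact_mod_cast hN1
  have a1 := h1 N (by omega)
  have a2 := h2 N (by omega)
  obtain ⟨L, hLd⟩ : ∃ L, L = Real.log (N : ℝ) := ⟨_, rfl⟩
  obtain ⟨K, hK⟩ : ∃ K, K = ⌊L ^ A⌋₊ := ⟨_, rfl⟩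
  rw [← hLd, ← hK] at hg
  rw [← hLd] at a1 a2
  have hL1 : 1 ≤ L := by linarith
  have hL0 : 0 < L := by linarith
  have hLA : 1 ≤ L ^ A := one_le_pow₀ hL1
  have hK1 : 1 ≤ K := by rw [hK]; exact Nat.le_floor (by rw [Nat.cast_one]; exact hLA)
  have hKL : (K : ℝ) ≤ L ^ A := by rw [hK]; exact Nat.floor_le (by positivity)
  have hKr : (1 : ℝ) ≤ K := by exact_mod_cast hK1
  intro H h x₀ x₁ hH hh hx hx1
  rw [← hLd] at hH hh ⊢
  have hHK : H ≤ K := by rw [hK]; exact Nat.le_floor hH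
  have hhK : h ≤ K := by rw [hK]; exact Nat.le_floor hh
  have hY : x₁ + K * v ≤ (B + B0) * K * N := by
    have e1 : K * v ≤ K * (B0 * N) := Nat.mul_le_mul_left _ hv
    have e2 : B * N ≤ K * (B * N) := Nat.le_mul_of_pos_left _ hK1
    calc x₁ + K * v ≤ K * (B * N) + K * (B0 * N) := by omega
      _ = _ := by ring
  have hU : (0 : ℝ) ≤ N / Real.log N ^ (4 * A + U + 1) := by rw [← hLd]; positivity
  have hKK : (H : ℝ) ≤ L ^ A := hH
  have hH0 : (0 : ℝ) ≤ H := Nat.cast_nonneg _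
  have hh0 : (0 : ℝ) ≤ h := Nat.cast_nonneg _
  have hhL : (h : ℝ) ≤ L ^ A := hh
  constructor
  · intro a ha
    have h3 := vari (4 * A + U + 1) N K ((B + B0) * K * N) v hg hK1 H hHK x₀ x₁ hx hY a ha hU
    refine h3.trans ?_
    rw [← hLd]
    have e1 : (H : ℝ) * H * (N / L ^ (4 * A + U + 1)) ≤ N / L ^ U / 2 := by
      calc (H : ℝ) * H * (N / L ^ (4 * A + U + 1)) ≤ L ^ A * L ^ A * (N / L ^ (2 * A + U + 1)) := by
            apply mul_le_mul
            · exact mul_le_mul hH hH hH0 (by positivity)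
            · exact div_le_div_of_nonneg_left hN0.le (by positivity) (pow_le_pow_right₀ hL1 (by omega))
            · positivity
            · positivity
        _ = N / L ^ U * (1 / L) := by
            rw [show 2 * A + U + 1 = A + A + U + 1 by ring]
            simp only [pow_add, pow_one]
            field_simp
        _ ≤ N / L ^ U * (1 / 2) := by
            apply mul_le_mul_of_nonneg_left _ (by positivity)
            exact one_div_le_one_div_of_le (by norm_num) a1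
        _ = _ := by ring
    have e2 : (H : ℝ) * (10 * Real.sqrt (((B + B0) * K * N : ℕ) : ℝ)) ≤ N / L ^ U / 2 := by
      have e3 : Real.sqrt (((B + B0) * K * N : ℕ) : ℝ) ≤ N / (20 * L ^ (A + U)) := by
        rw [Real.sqrt_le_left (by positivity)]
        push_cast
        rw [div_pow, le_div_iff₀ (by positivity)]
        calc ((B : ℝ) + B0) * K * N * (20 * L ^ (A + U)) ^ 2 ≤ ((B : ℝ) + B0) * L ^ A * N * (20 * L ^ (A + U)) ^ 2 := by
              gcongr
          _ = (400 * ((B : ℝ) + B0) * L ^ (3 * A + 2 * U)) * N := by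
              rw [show 3 * A + 2 * U = A + (A + U) + (A + U) by ring]
              simp only [pow_add]
              ring
          _ ≤ N * N := mul_le_mul_of_nonneg_right a2 hN0.le
          _ = (N : ℝ) ^ 2 := by ring
      calc (H : ℝ) * (10 * Real.sqrt (((B + B0) * K * N : ℕ) : ℝ)) ≤ L ^ A * (10 * (N / (20 * L ^ (A + U)))) := by
            apply mul_le_mul hH _ (by positivity) (by positivity)
            linarith
        _ = N / L ^ U / 2 := by
            rw [pow_add]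
            field_simp
            norm_num
    linarith
  · intro a ha
    have h3 := uncor (4 * A + U + 1) N K ((B + B0) * K * N) v hg H h hHK hhK x₀ x₁ hx hY a ha hU
    refine h3.trans ?_
    rw [← hLd]
    calc (H : ℝ) * H * (h * h * (N / L ^ (4 * A + U + 1))) ≤ L ^ A * L ^ A * (L ^ A * L ^ A * (N / L ^ (4 * A + U + 1))) := by
          gcongr
      _ = N / L ^ U * (1 / L) := by
          rw [show 4 * A + U + 1 = A + A + A + A + U + 1 by ring]
          simp only [pow_add, pow_one]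
          field_simp
      _ ≤ N / L ^ U * 1 := by
          apply mul_le_mul_of_nonneg_left _ (by positivity)
          rw [div_le_one hL0]
          exact hL1
      _ = _ := mul_one _

open Classical in
/-- the variance formula for almost all differences -/
theorem fm_law (A B B0 U : ℕ) (hB : 1 ≤ B) (hB0 : 1 ≤ B0) : ∃ W : ℕ, ∀ E : ℕ, ∃ N₀ : ℕ, ∀ N, N₀ ≤ N → ∀ (Ω : Finset ℕ) (p : ℕ → ℝ),
    Lw B0 E W N Ω p → ∑ v ∈ Ω, (if Fm A B U N v then 0 else p v) ≤ 1 / Real.log N ^ U := by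
  refine ⟨2 * (4 * A + 3 * (4 * A + U + 1) + 4) + 2 * A + 1, fun E => ?_⟩
  obtain ⟨n1, h1⟩ := goodv A B0 (B + B0) (4 * A + U + 1) hB0 (by omega) E
  obtain ⟨n2, h2⟩ := fm_of_gd A B B0 U
  obtain ⟨n3, h3⟩ := ev_L' 2
  refine ⟨n1 + n2 + n3 + 3, fun N hN Ω p hlaw => ?_⟩
  have a3 := h3 N (by omega)
  have hL1 : 1 ≤ Real.log (N : ℝ) := by linarith
  have hLA : 1 ≤ Real.log (N : ℝ) ^ A := one_le_pow₀ hL1
  have h4 := h1 N (by omega) Ω p hlaw ⌊Real.log N ^ A⌋₊ (Nat.le_floor (by rw [Nat.cast_one]; exact hLA)) (Nat.floor_le (by positivity))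
  have h5 : ∑ v ∈ Ω, (if Fm A B U N v then 0 else p v) ≤
      ∑ v ∈ Ω, (if Gd (4 * A + U + 1) N ⌊Real.log N ^ A⌋₊ ((B + B0) * ⌊Real.log N ^ A⌋₊ * N) v then 0 else p v) := by
    apply sum_le_sum
    intro v hv
    have hp := hlaw.1 v hv
    by_cases hg : Gd (4 * A + U + 1) N ⌊Real.log N ^ A⌋₊ ((B + B0) * ⌊Real.log N ^ A⌋₊ * N) v
    · rw [if_pos hg, if_pos (h2 N (by omega) v (hlaw.2.2.1 v hv) hg)]
    · rw [if_neg hg]
      split_ifs
      · exact hp
      · exact le_rfl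
  refine h5.trans (h4.trans ?_)
  apply div_le_div_of_nonneg_left zero_le_one (by positivity)
  exact pow_le_pow_right₀ hL1 (by omega)

end Pool.Agent.N699.GC
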