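import Pool.Agent.N699.RP.Prim
import Pool.Agent.N699.GC.Smo

set_option autoImplicit false

/-! Laws with a small Fourier transform off the arc at zero. -/

namespace Pool.Agent.N699.GC
open Finset
open Pool.Agent.H807R2.Dav
open Pool.Agent.H373R2.T7
open Pool.Agent.N699.RP

/-- the class of the laws: measures with a small Fourier transform off the arc at zero -/
def Lz (B E W N : ℕ) (Ω : Finset ℕ) (p : ℕ → ℝ) : Prop :=
  (∀ v ∈ Ω, 0 ≤ p v) ∧ ∑ v ∈ Ω, p v = 1 ∧ (∀ v ∈ Ω, v ≤ B * N) ∧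
    ∀ α : ℝ, (∀ k : ℤ, Real.log N ^ E / N < |α - k|) → ‖∑ v ∈ Ω, ((p v : ℝ) : ℂ) * ee ((v : ℝ) * α)‖ ≤ 1 / Real.log N ^ W

lemma lw_of_lz (B E W N : ℕ) (Ω : Finset ℕ) (p : ℕ → ℝ) (hN : 1 ≤ Real.log N) (h : Lz B E W N Ω p) : Lw B E W N Ω p := by
  obtain ⟨h1, h2, h3, h4⟩ := h
  refine ⟨h1, h2, h3, fun α hα => h4 α fun k => ?_⟩
  unfold Mj at hα
  push Not at hα
  have e1 := hα 1 le_rfl (by rw [Nat.cast_one]; exact one_le_pow₀ hN) k
  rw [Nat.cast_one, div_one] at e1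
  exact e1

lemma lz_trans {τ : Type} (B B' E W N : ℕ) (T : Finset τ) (ω : τ → ℝ) (hω : ∀ t ∈ T, 0 ≤ ω t) (val : τ → ℕ) (c : ℕ)
    (hc : c ≤ B' * N) (h : Lz B E W N (T.image val) (push T ω val)) :
    Lz (B + B') E W N (T.image fun t => c + val t) (push T ω fun t => c + val t) := by
  obtain ⟨h1, h2, h3, h4⟩ := h
  refine ⟨fun v _ => sum_nonneg fun t ht => hω t (mem_filter.1 ht).1, ?_, ?_, ?_⟩
  · rw [push_sum1] at h2 ⊢
    exact h2
  · intro v hv
    rw [mem_image] at hv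
    obtain ⟨t, ht, rfl⟩ := hv
    have := h3 (val t) (mem_image_of_mem _ ht)
    rw [add_mul]
    omega
  · intro α hα
    have h5 := h4 α hα
    rw [push_sum T ω val (fun v => ee ((v : ℝ) * α))] at h5
    rw [push_sum T ω (fun t => c + val t) (fun v => ee ((v : ℝ) * α))]
    have e1 : ∑ t ∈ T, ((ω t : ℝ) : ℂ) * ee (((c + val t : ℕ) : ℝ) * α) = ee ((c : ℝ) * α) * ∑ t ∈ T, ((ω t : ℝ) : ℂ) * ee ((val t : ℝ) * α) := by
      rw [mul_sum]
      apply sum_congr rfl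
      intro t _
      push_cast
      rw [add_mul, ee_add]
      ring
    rw [e1, norm_mul, norm_ee, one_mul]
    exact h5

/-- the law of the random points -/
theorem pts_lawz (B W : ℕ) (hB : 1 ≤ B) : ∃ N₀ : ℕ, ∀ N, N₀ ≤ N → ∀ M : ℕ, N ≤ B * M → M ≤ B * N →
    ∀ I : ℕ, 1 ≤ I → I ≤ N → ∀ 𝓑 : Finset ℕ, (∀ b ∈ 𝓑, 2 ≤ b) → (∀ b ∈ 𝓑, b ≤ I) → (𝓑 : Set ℕ).Pairwise Nat.Coprime →
    ∀ w : ℕ → ℝ, (∀ b ∈ 𝓑, 0 ≤ w b) → ∑ b ∈ 𝓑, w b = 1 → (∀ b ∈ 𝓑, w b ≤ 1 / Real.log N ^ (2 * W + 2)) →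
    Lz (B + 1) (W + 1) W N ((trip 𝓑 I).image (pt M)) (push (trip 𝓑 I) (wt w I) (pt M)) := by
  obtain ⟨n1, h1⟩ := ev_L' (2 * B + Real.log B + 40)
  refine ⟨n1 + 3, fun N hN M hM1 hM2 I hI hIN 𝓑 hb2 hbI hco w hw0 hw1 hwθ => ?_⟩
  have a1 := h1 N (by omega)
  obtain ⟨L, hLd⟩ : ∃ L, L = Real.log (N : ℝ) := ⟨_, rfl⟩
  rw [← hLd] at a1 hwθ
  have hBr : (1 : ℝ) ≤ B := by exact_mod_cast hB
  have hlogB : 0 ≤ Real.log (B : ℝ) := Real.log_nonneg hBr
  have hL40 : 40 ≤ L := by linarith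
  have hL1 : 1 ≤ L := by linarith
  have hL0 : 0 < L := by linarith
  have hN0 : (0 : ℝ) < N := by exact_mod_cast (by omega : 0 < N)
  have hMpos : 1 ≤ M := by
    by_contra hcon
    have : M = 0 := by omega
    rw [this, mul_zero] at hM1
    omega
  have hM0 : (0 : ℝ) < M := by exact_mod_cast hMpos
  have hwt0 : ∀ t ∈ trip 𝓑 I, 0 ≤ wt w I t := by
    intro t ht
    unfold trip at ht
    rw [mem_filter, mem_product] at ht
    have := hw0 t.1 ht.1.1
    unfold wt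
    positivity
  refine ⟨fun v _ => sum_nonneg fun t ht => hwt0 t (mem_filter.1 ht).1, ?_, ?_, ?_⟩
  · rw [push_sum1]
    exact wt_sum 𝓑 I hI hb2 hbI w hw1
  · intro v hv
    rw [mem_image] at hv
    obtain ⟨t, ht, rfl⟩ := hv
    unfold trip at ht
    rw [mem_filter, mem_product, mem_product, mem_range, mem_range] at ht
    unfold pt
    have e1 : t.2.1 * (M / t.1) ≤ M := by
      calc t.2.1 * (M / t.1) ≤ t.1 * (M / t.1) := Nat.mul_le_mul_right _ ht.2.le
        _ ≤ M := Nat.mul_div_le M t.1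
    have e2 : t.2.2 ≤ N := by omega
    calc t.2.1 * (M / t.1) + t.2.2 ≤ B * N + N := by omega
      _ = (B + 1) * N := by ring
  · intro α hα
    rw [push_sum (trip 𝓑 I) (wt w I) (pt M) (fun v => ee ((v : ℝ) * α))]
    refine (pts_ft 𝓑 I M hbI w hw0 α).trans ?_
    rw [← hLd] at hα ⊢
    have hfin := pts_dec (1 / (2 * L ^ W)) (1 / L ^ (2 * W + 2)) α (by positivity) (by positivity) M I hMpos hI 𝓑 hb2 hbI hco w hw0 hw1 hwθ
      (by
        have e1 : 2 / (1 / (2 * L ^ W)) + 1 ≤ 5 * L ^ W := by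
          have : 2 / (1 / (2 * L ^ W)) = 4 * L ^ W := by field_simp; norm_num
          rw [this]
          have : 1 ≤ L ^ W := one_le_pow₀ hL1
          linarith
        have e2 : 2 * Real.log M ≤ 4 * L := by
          have : Real.log M ≤ Real.log (B * N) := Real.log_le_log hM0 (by exact_mod_cast hM2)
          rw [Real.log_mul (by positivity) hN0.ne', ← hLd] at this
          linarith
        have e3 : 0 ≤ Real.log (M : ℝ) := Real.log_natCast_nonneg M
        calc (2 / (1 / (2 * L ^ W)) + 1) * (2 * Real.log M) * (1 / L ^ (2 * W + 2)) ≤ (5 * L ^ W) * (4 * L) * (1 / L ^ (2 * W + 2)) := by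
              apply mul_le_mul_of_nonneg_right _ (by positivity)
              exact mul_le_mul e1 e2 (by positivity) (by positivity)
          _ = (20 / L) * (1 / L ^ W) := by
              rw [show 2 * W + 2 = W + W + 2 by ring, pow_add, pow_add]
              field_simp
              norm_num
          _ ≤ (1 / 2) * (1 / L ^ W) := by
              apply mul_le_mul_of_nonneg_right _ (by positivity)
              rw [div_le_div_iff₀ hL0 (by norm_num)]
              linarith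
          _ = _ := by ring)
      (by
        intro k
        have e1 := hα k
        refine lt_of_le_of_lt ?_ e1
        have hNM : (N : ℝ) ≤ B * M := by exact_mod_cast hM1
        rw [div_le_div_iff₀ (by positivity) hN0]
        have e2 : L ^ (W + 1) * (1 / (2 * L ^ W) * M) = L * M / 2 := by
          rw [pow_succ]
          field_simp
        rw [e2, one_mul]
        nlinarith)
    refine hfin.trans (le_of_eq ?_)
    field_simp

/-- the law of a random point -/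
theorem prime_lawz (B W : ℕ) (hB : 1 ≤ B) : ∃ N₀ : ℕ, ∀ N, N₀ ≤ N → ∀ M : ℕ, N ≤ B * M → M ≤ B * N →
    ∀ Q : ℕ, Real.log N ^ (2 * W + 5) ≤ Q → Q ≤ N →
    Lz (B + 1) (W + 1) W N ((pts Q).image (pt M)) (push (pts Q) (fun _ => 1 / ((pts Q).card : ℝ)) (pt M)) := by
  obtain ⟨n1, h1⟩ := pts_lawz B W hB
  obtain ⟨n2, h2⟩ := ev_L' 20
  refine ⟨n1 + n2 + 3, fun N hN M hM1 hM2 Q hQ1 hQ2 => ?_⟩
  have a2 := h2 N (by omega)
  have hlaw := h1 N (by omega) M hM1 hM2
  obtain ⟨L, hLd⟩ : ∃ L, L = Real.log (N : ℝ) := ⟨_, rfl⟩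
  rw [← hLd] at a2 hQ1 hlaw
  have hL1 : 1 ≤ L := by linarith
  have hL0 : 0 < L := by linarith
  have hQ20 : (20 : ℝ) ≤ Q := by
    calc (20 : ℝ) ≤ L := a2
      _ = L ^ 1 := (pow_one L).symm
      _ ≤ L ^ (2 * W + 5) := pow_le_pow_right₀ hL1 (by omega)
      _ ≤ Q := hQ1
  have hQn : 20 ≤ Q := by exact_mod_cast hQ20
  have hQ0 : (0 : ℝ) < Q := by linarith
  have hlQ0 : 0 < Real.log Q := Real.log_pos (by linarith)
  have hlQ : Real.log Q ≤ L := by rw [hLd]; exact Real.log_le_log hQ0 (by exact_mod_cast hQ2)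
  obtain ⟨S, hS⟩ : ∃ S : ℝ, S = ∑ b ∈ prs Q, (b : ℝ) := ⟨_, rfl⟩
  have hS1 := sum_prs Q hQn
  rw [← hS] at hS1
  have hS2 : Q * L ^ (2 * W + 2) ≤ S := by
    refine le_trans ?_ hS1
    rw [le_div_iff₀ (by positivity)]
    calc Q * L ^ (2 * W + 2) * (16 * Real.log Q ^ 2) ≤ Q * L ^ (2 * W + 2) * (L * L ^ 2) := by
          apply mul_le_mul_of_nonneg_left _ (by positivity)
          exact mul_le_mul (by linarith) (pow_le_pow_left₀ hlQ0.le hlQ 2) (by positivity) hL0.le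
      _ = Q * L ^ (2 * W + 5) := by
          rw [show 2 * W + 5 = 2 * W + 2 + 3 by ring, pow_add]
          ring
      _ ≤ Q * Q := mul_le_mul_of_nonneg_left hQ1 hQ0.le
      _ = (Q : ℝ) ^ 2 := by ring
  have hS0 : 0 < S := lt_of_lt_of_le (by positivity) hS2
  have h3 := hlaw Q (by omega) hQ2 (prs Q) (fun b hb => (prs_mem Q b hb).1.two_le) (fun b hb => (prs_mem Q b hb).2) (by
    intro a ha b hb hab
    exact (Nat.coprime_primes (prs_mem Q a (Finset.mem_coe.1 ha)).1 (prs_mem Q b (Finset.mem_coe.1 hb)).1).2 hab)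
    (fun b => (b : ℝ) / S) (fun b _ => by positivity) (by rw [← sum_div, ← hS, div_self hS0.ne']) (by
    intro b hb
    have hbQ : (b : ℝ) ≤ Q := by exact_mod_cast (prs_mem Q b hb).2
    rw [div_le_div_iff₀ hS0 (by positivity), one_mul]
    exact (mul_le_mul_of_nonneg_right hbQ (by positivity)).trans hS2)
  have h4 : ∀ t ∈ trip (prs Q) Q, wt (fun b => (b : ℝ) / S) Q t = 1 / ((pts Q).card : ℝ) := by
    intro t ht
    unfold trip at ht
    rw [mem_filter, mem_product] at ht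
    have hb0 : (0 : ℝ) < t.1 := by exact_mod_cast (prs_mem Q t.1 ht.1.1).1.pos
    rw [card_pts, ← hS]
    unfold wt
    field_simp
  have h5 : push (trip (prs Q) Q) (wt (fun b => (b : ℝ) / S) Q) (pt M) = push (pts Q) (fun _ => 1 / ((pts Q).card : ℝ)) (pt M) := by
    funext v
    unfold push
    rw [← pts_eq] at h4 ⊢
    apply sum_congr rfl
    intro t ht
    exact h4 t (mem_filter.1 ht).1
  rw [h5, ← pts_eq] at h3
  exact h3

end Pool.Agent.N699.GC
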